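import Mathlib

/-!
# Integrals of functionals lie in the closed cone of their values

A continuous functional on a topological vector space that is an integral of a jointly continuous
family of functionals, dominated on every compact set, lies in the closure, for the topology of
uniform convergence on compact sets, of the cone spanned by the family.
-/

open Set MeasureTheory TopologicalSpace Topology Filter
open scoped CompactConvergenceCLM NNReal

noncomputable section

namespace Pool.Agent.V8H78.LeafCurves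

variable {X : Type*} [AddCommGroup X] [Module ℝ X] [TopologicalSpace X]
  [IsTopologicalAddGroup X] [ContinuousSMul ℝ X]

/-- Restriction of functionals to a compact set. -/
def restrCompact (K : Set X) [CompactSpace K] : (X →L_c[ℝ] ℝ) →ₗ[ℝ] C(K, ℝ) where
  toFun f := ⟨fun x => f x, by fun_prop⟩
  map_add' f g := by ext; rfl
  map_smul' a f := by ext; rfl

omit [IsTopologicalAddGroup X] [ContinuousSMul ℝ X] in
@[simp] theorem restrCompact_apply (K : Set X) [CompactSpace K] (f : X →L_c[ℝ] ℝ) (x : K) :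
    restrCompact K f x = f x := rfl

/-- The integral of an integrable function with values in a closed convex cone of a Banach space
is in the cone. -/
theorem integral_mem_cone {E P : Type*} [NormedAddCommGroup E] [NormedSpace ℝ E] [CompleteSpace E]
    [MeasurableSpace P] {μ : Measure P} (C : Set E) (hC : Convex ℝ C) (hcl : IsClosed C)
    (h0 : (0 : E) ∈ C) (hsm : ∀ x ∈ C, ∀ t : ℝ, 0 ≤ t → t • x ∈ C) {G : P → E}
    (hG : Integrable G μ) (hmem : ∀ p, G p ∈ C) : ∫ p, G p ∂μ ∈ C := by
  by_contra hnot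
  obtain ⟨f, u, hf, hu⟩ := geometric_hahn_banach_closed_point hC hcl hnot
  have hu0 : 0 < u := by simpa using hf 0 h0
  have hneg : ∀ x ∈ C, f x ≤ 0 := by
    intro x hx
    by_contra hpos
    push Not at hpos
    have h1 := hf ((u / f x) • x) (hsm x hx _ (by positivity))
    rw [map_smul, smul_eq_mul, div_mul_cancel₀ _ hpos.ne'] at h1
    exact lt_irrefl _ h1
  have h2 : f (∫ p, G p ∂μ) = ∫ p, f (G p) ∂μ := (f.integral_comp_comm hG).symm
  have h3 : ∫ p, f (G p) ∂μ ≤ 0 := integral_nonpos fun p => hneg _ (hmem p)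
  linarith

omit [ContinuousSMul ℝ X] in
/-- A continuous functional `φ = ∫ F p dμ(p)` lies in the closure of the cone spanned by the
functionals `F p`. -/
theorem mem_closure_span_of_integral {P : Type*} [TopologicalSpace P] [MeasurableSpace P]
    [OpensMeasurableSpace P] [SecondCountableTopology P] {μ : Measure P}
    (S : Set (X →L_c[ℝ] ℝ)) (F : P → (X →L_c[ℝ] ℝ)) (hF : ∀ p, F p ∈ S)
    (hcont : Continuous fun z : X × P => F z.2 z.1) (φ : X →L_c[ℝ] ℝ)
    (hφ : ∀ α, φ α = ∫ p, F p α ∂μ)
    (hdom : ∀ K : Set X, IsCompact K → ∃ b : P → ℝ, Integrable b μ ∧ ∀ α ∈ K, ∀ p,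
      |F p α| ≤ b p) :
    φ ∈ closure (Submodule.span ℝ≥0 S : Set (X →L_c[ℝ] ℝ)) := by
  classical
  -- reduction to approximation on a compact set
  suffices H : ∀ K : Set X, IsCompact K → ∀ ε > 0, ∃ T ∈ Submodule.span ℝ≥0 S,
      ∀ α ∈ K, |T α - φ α| < ε by
    rw [mem_closure_iff_nhds]
    intro N hN
    have hN' : (fun T : X →L_c[ℝ] ℝ => T + φ) ⁻¹' N ∈ 𝓝 (0 : X →L_c[ℝ] ℝ) := by
      have hc : Continuous (fun T : X →L_c[ℝ] ℝ => T + φ) := by fun_prop
      exact hc.continuousAt.preimage_mem_nhds (by simpa using hN)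
    rw [CompactConvergenceCLM.hasBasis_nhds_zero.mem_iff] at hN'
    obtain ⟨⟨K, V⟩, ⟨hK, hV⟩, hsub⟩ := hN'
    obtain ⟨ε, hε, hball⟩ := Metric.mem_nhds_iff.1 hV
    obtain ⟨T, hT, hTK⟩ := H K hK ε hε
    refine ⟨T, ?_, hT⟩
    have h1 : T - φ ∈ (fun T : X →L_c[ℝ] ℝ => T + φ) ⁻¹' N := by
      apply hsub
      intro α hα
      apply hball
      rw [Metric.mem_ball, dist_zero_right]
      exact hTK α hα
    simpa using h1
  intro K hK ε hε
  have : CompactSpace K := isCompact_iff_compactSpace.1 hK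
  obtain ⟨b, hb, hbd⟩ := hdom K hK
  let R := restrCompact K
  let G : P → C(K, ℝ) := fun p => R (F p)
  have hGcont : Continuous G := by
    have : Continuous (fun z : P × K => F z.1 z.2) :=
      hcont.comp (by fun_prop : Continuous fun z : P × K => ((z.2 : X), z.1))
    exact (ContinuousMap.curry ⟨fun z : P × K => F z.1 z.2, this⟩).continuous
  have hGint : Integrable G μ := by
    refine hb.abs.mono' hGcont.stronglyMeasurable.aestronglyMeasurable (ae_of_all _ fun p => ?_)
    rw [ContinuousMap.norm_le _ (abs_nonneg _)]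
    intro x
    exact (hbd x x.2 p).trans (le_abs_self _)
  have hRφ : R φ = ∫ p, G p ∂μ := by
    ext x
    have h1 : (∫ p, G p ∂μ) x = ∫ p, (G p) x ∂μ :=
      (ContinuousLinearMap.integral_comp_comm (ContinuousMap.evalCLM ℝ x) hGint).symm
    rw [h1]
    exact hφ x
  let D : Submodule ℝ≥0 C(K, ℝ) := (Submodule.span ℝ≥0 S).map (R.restrictScalars ℝ≥0)
  have hsmul : ∀ (E : Submodule ℝ≥0 C(K, ℝ)), ∀ x ∈ E, ∀ t : ℝ, 0 ≤ t → t • x ∈ E := by
    intro E x hx t ht
    exact E.smul_mem ⟨t, ht⟩ hx
  have hconv : Convex ℝ (D.topologicalClosure : Set C(K, ℝ)) := by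
    intro x hx y hy a c ha hc _
    exact Submodule.add_mem _ (hsmul _ x hx a ha) (hsmul _ y hy c hc)
  have hmem : ∫ p, G p ∂μ ∈ (D.topologicalClosure : Set C(K, ℝ)) := by
    refine integral_mem_cone _ hconv D.isClosed_topologicalClosure (Submodule.zero_mem _)
      (hsmul _) hGint fun p => ?_
    refine D.le_topologicalClosure ?_
    exact Submodule.mem_map_of_mem (f := R.restrictScalars ℝ≥0) (Submodule.subset_span (hF p))
  rw [← hRφ, Submodule.topologicalClosure_coe, Metric.mem_closure_iff] at hmem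
  obtain ⟨T', hT', hdist⟩ := hmem ε hε
  obtain ⟨T, hT, rfl⟩ := hT'
  refine ⟨T, hT, fun α hα => ?_⟩
  rw [dist_comm, ContinuousMap.dist_lt_iff hε] at hdist
  exact hdist ⟨α, hα⟩

end Pool.Agent.V8H78.LeafCurves
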