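import Mathlib

/-!
# Holomorphic maps on connected Riemann surfaces
-/

open Set TopologicalSpace Topology Filter

noncomputable section

namespace Pool.Agent.V8H78.LeafCurves

variable {S : Type*} [TopologicalSpace S] [ChartedSpace ℂ S]
variable {E : Type*} [NormedAddCommGroup E] [NormedSpace ℂ E]

/-- A map on a Riemann surface is holomorphic if it is holomorphic in all charts of the atlas. -/
def Hol (f : S → E) : Prop := ∀ φ ∈ atlas ℂ S, DifferentiableOn ℂ (fun z => f (φ.symm z)) φ.target

/-- The identity theorem. -/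
theorem Hol.eq_const [CompleteSpace E] [PreconnectedSpace S] {f : S → E} (hf : Hol f) {c : E}
    {s₀ : S} (h₀ : ∀ᶠ s in 𝓝 s₀, f s = c) (s : S) : f s = c := by
  set A : Set S := {s | ∀ᶠ s' in 𝓝 s, f s' = c} with hA
  have hopen : IsOpen A := isOpen_iff_mem_nhds.2 fun s hs => eventually_eventually_nhds.2 hs
  have hclosed : IsClosed A := by
    refine isClosed_of_closure_subset fun s hs => ?_
    set φ := chartAt ℂ s with hφ
    have hsφ : s ∈ φ.source := mem_chart_source ℂ s
    have hz0 : φ s ∈ φ.target := φ.map_source hsφ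
    obtain ⟨r, hr, hball⟩ := Metric.isOpen_iff.1 φ.open_target _ hz0
    have hW : φ.source ∩ φ ⁻¹' Metric.ball (φ s) r ∈ 𝓝 s :=
      φ.continuousAt hsφ |>.preimage_mem_nhds (Metric.ball_mem_nhds _ hr) |> fun h =>
        inter_mem (φ.open_source.mem_nhds hsφ) h
    obtain ⟨s₁, ⟨hs₁, hs₁b⟩, hs₁A⟩ := mem_closure_iff_nhds.1 hs _ hW
    have han : AnalyticOnNhd ℂ (fun z => f (φ.symm z)) (Metric.ball (φ s) r) :=
      ((hf φ (chart_mem_atlas ℂ s)).mono hball).analyticOnNhd Metric.isOpen_ball
    have hev : (fun z => f (φ.symm z)) =ᶠ[𝓝 (φ s₁)] fun _ => c := by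
      have : Tendsto φ.symm (𝓝 (φ s₁)) (𝓝 s₁) := by
        have := φ.continuousAt_symm (φ.map_source hs₁)
        rwa [ContinuousAt, φ.left_inv hs₁] at this
      exact this.eventually hs₁A
    have heq := han.eqOn_of_preconnected_of_eventuallyEq analyticOnNhd_const
      (convex_ball _ _).isPreconnected hs₁b hev
    filter_upwards [hW] with s' hs'
    have := heq hs'.2
    simpa [φ.left_inv hs'.1] using this
  have huniv : A = univ := IsClopen.eq_univ (⟨hclosed, hopen⟩ : IsClopen A) ⟨s₀, h₀⟩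
  have : s ∈ A := huniv ▸ mem_univ s
  exact this.self_of_nhds

/-- The open mapping theorem. -/
theorem Hol.isOpenMap [PreconnectedSpace S] {f : S → ℂ} (hf : Hol f)
    (hne : ¬ ∃ c, ∀ s, f s = c) : IsOpenMap f := by
  refine isOpenMap_iff_nhds_le.2 fun s => ?_
  set φ := chartAt ℂ s with hφ
  have hsφ : s ∈ φ.source := mem_chart_source ℂ s
  have hz0 : φ s ∈ φ.target := φ.map_source hsφ
  have han : AnalyticAt ℂ (fun z => f (φ.symm z)) (φ s) :=
    (hf φ (chart_mem_atlas ℂ s)).analyticAt (φ.open_target.mem_nhds hz0)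
  have hmap : map φ.symm (𝓝 (φ s)) = 𝓝 s := by
    have := φ.symm.map_nhds_eq (x := φ s) hz0
    rwa [φ.left_inv hsφ] at this
  rcases han.eventually_constant_or_nhds_le_map_nhds with h | h
  · exfalso
    apply hne
    refine ⟨f s, fun s' => hf.eq_const (s₀ := s) ?_ s'⟩
    rw [← hmap, eventually_map]
    filter_upwards [h] with z hz
    rwa [φ.left_inv hsφ] at hz
  · have h1 : map (fun z => f (φ.symm z)) (𝓝 (φ s)) = map f (𝓝 s) := by
      rw [← hmap, map_map]
      rfl
    rw [h1, φ.left_inv hsφ] at h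
    exact h

/-- A holomorphic function whose real part vanishes on a nonempty open set is constant, with value
an imaginary number. -/
theorem Hol.eq_const_of_re_eq_zero [PreconnectedSpace S] {f : S → ℂ} (hf : Hol f)
    {V : Set S} (hV : IsOpen V) (hne : V.Nonempty) (h : ∀ s ∈ V, (f s).re = 0) :
    ∃ t : ℝ, ∀ s, f s = ⟨0, t⟩ := by
  by_cases hc : ∃ c, ∀ s, f s = c
  · obtain ⟨c, hc⟩ := hc
    obtain ⟨s, hs⟩ := hne
    refine ⟨c.im, fun s' => ?_⟩
    rw [hc]
    refine Complex.ext ?_ rfl
    rw [← hc s]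
    exact h s hs
  · exfalso
    have hop := hf.isOpenMap hc V hV
    obtain ⟨s, hs⟩ := hne
    obtain ⟨r, hr, hball⟩ := Metric.isOpen_iff.1 hop (f s) ⟨s, hs, rfl⟩
    have hmem : f s + (r / 2 : ℝ) ∈ Metric.ball (f s) r := by
      rw [Metric.mem_ball, dist_eq_norm, add_sub_cancel_left, Complex.norm_real, Real.norm_eq_abs,
        abs_of_pos (by positivity)]
      linarith
    obtain ⟨s', hs', he⟩ := hball hmem
    have h1 := congrArg Complex.re he
    rw [h s' hs', Complex.add_re, h s hs, Complex.ofReal_re] at h1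
    linarith

end Pool.Agent.V8H78.LeafCurves
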