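import Pool.Agent.V8H78.LeafCurves.Tropical
import Pool.Agent.V8H78.LeafCurves.Hol

/-!
# No curve through a small ball around the origin is contained in the tropical support
-/

open Set MeasureTheory TopologicalSpace Topology Filter
open scoped Distributions CompactConvergenceCLM Manifold ContDiff NNReal BoundedContinuousFunction
open scoped ComplexConjugate

noncomputable section

namespace Pool.Agent.V8H78.LeafCurves

variable {n : ℕ} (k : ℕ)

/-- The tropical condition on `ℂ²`: the maximum of `Re z₁`, `Re z₂`, `0` is attained twice. -/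
def Trop (z : ℂ × ℂ) : Prop :=
  (z.1.re = 0 ∧ z.2.re ≤ 0) ∨ (z.2.re = 0 ∧ z.1.re ≤ 0) ∨ (z.1.re = z.2.re ∧ 0 ≤ z.1.re)

theorem isClosed_trop : IsClosed {z : ℂ × ℂ | Trop z} := by
  have h1 : Continuous fun z : ℂ × ℂ => z.1.re := Complex.continuous_re.comp continuous_fst
  have h2 : Continuous fun z : ℂ × ℂ => z.2.re := Complex.continuous_re.comp continuous_snd
  exact ((isClosed_eq h1 continuous_const).inter (isClosed_le h2 continuous_const)).union
    (((isClosed_eq h2 continuous_const).inter (isClosed_le h1 continuous_const)).union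
    ((isClosed_eq h1 h2).inter (isClosed_le continuous_const h1)))

/-- The support of the tropical current. -/
def supp (hn : 2 ≤ n) : Set (Mfd n k) := emb k hn '' {z | Trop z}

theorem isClosed_supp (hn : 2 ≤ n) : IsClosed (supp k hn) :=
  ((emb k hn).toLinearMap.isClosedEmbedding_of_injective
    (LinearMap.ker_eq_bot.2 (emb_injective k hn))).isClosedMap _ isClosed_trop

/-- The reflection `(a, b) ↦ (-ā, -b̄)`. -/
def refl (z : ℂ × ℂ) : ℂ × ℂ := (-conj z.1, -conj z.2)

theorem norm_emb_refl (hn : 2 ≤ n) (z : ℂ × ℂ) : ‖emb k hn (refl z)‖ = ‖emb k hn z‖ := by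
  have h1 : ∀ z, ‖emb k hn z‖ = ‖(emb k hn z).1‖ := by
    intro z
    rw [Prod.norm_def, emb_apply_snd, norm_zero]
    exact max_eq_left (norm_nonneg _)
  rw [h1, h1, EuclideanSpace.norm_eq, EuclideanSpace.norm_eq]
  congr 1
  refine Finset.sum_congr rfl fun i _ => ?_
  congr 1
  rcases Nat.lt_or_ge i.val 2 with hi | hi
  · have : i = ⟨0, by omega⟩ ∨ i = ⟨1, by omega⟩ := by
      rcases i with ⟨i, hi'⟩
      simp only [Fin.mk.injEq]
      simp only at hi
      omega
    rcases this with h | h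
    · rw [h, emb_zero_coord, emb_zero_coord]
      simp [refl]
    · rw [h, emb_one_coord, emb_one_coord]
      simp [refl]
  · rw [emb_other_coord _ _ _ _ hi, emb_other_coord _ _ _ _ hi]

variable {k}
variable {U : Opens (Mfd n k)} {S : Type} [TopologicalSpace S] [ChartedSpace ℂ S] {u : S → U}

theorem IsCurve.hol (h : IsCurve (leafTangent n k) (stdJ n k) U S u) : Hol fun s => (u s : Mfd n k).1 := by
  intro φ hφ z hz
  have h1 : DifferentiableAt ℝ (fun z => (u (φ.symm z) : Mfd n k)) z :=
    ((h.smooth φ hφ).differentiableOn (by simp)).differentiableAt (φ.open_target.mem_nhds hz)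
  have h2 := h.holomorphic φ hφ z hz 1
  rw [mul_one] at h2
  have h3 : HasFDerivAt (fun z => (u (φ.symm z) : Mfd n k).1)
      ((ContinuousLinearMap.fst ℝ _ _).comp (fderiv ℝ (fun z => (u (φ.symm z) : Mfd n k)) z)) z :=
    h1.hasFDerivAt.fst
  refine DifferentiableAt.differentiableWithinAt ?_
  rw [differentiableAt_complex_iff_differentiableAt_real]
  refine ⟨h3.differentiableAt, ?_⟩
  rw [h3.fderiv, ContinuousLinearMap.comp_apply, ContinuousLinearMap.comp_apply, h2]
  rfl

theorem IsCurve.hol_coord (h : IsCurve (leafTangent n k) (stdJ n k) U S u) (j : Fin n) :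
    Hol fun s => (u s : Mfd n k).1 j := by
  intro φ hφ
  exact (EuclideanSpace.proj j : EuclideanSpace ℂ (Fin n) →L[ℂ] ℂ).differentiable.comp_differentiableOn
    (h.hol φ hφ)

theorem IsCurve.not_const (h : IsCurve (leafTangent n k) (stdJ n k) U S u) : ¬ ∃ c, ∀ s, (u s : Mfd n k) = c := by
  rintro ⟨c, hc⟩
  obtain ⟨φ, hφ, z, hz, hne, -⟩ := h.somewhere_injective
  apply hne
  simp [hc]

omit [ChartedSpace ℂ S] in
/-- A curve which is the image of a slice is relatively clopen in the slice. -/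
theorem slice_subset [PreconnectedSpace S] (hu : IsProperMap u) {h : S → ℂ} (hh : IsOpenMap h)
    {A : ℂ → Mfd n k} (hA : Continuous A) (hAi : Function.Injective A)
    (huA : ∀ s, (u s : Mfd n k) = A (h s)) {B : Set (Mfd n k)}
    (hBU : B ⊆ U) (hconn : IsPreconnected (A ⁻¹' B)) {s₀ : S} (hs₀ : (u s₀ : Mfd n k) ∈ B) :
    A ⁻¹' B ⊆ range h := by
  have hcl : IsClosed (range u) := hu.isClosedMap.isClosed_range
  have hopen : IsOpen (((↑) : U → Mfd n k) '' (range u)ᶜ) :=
    U.isOpen.isOpenMap_subtype_val _ hcl.isOpen_compl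
  refine IsPreconnected.subset_left_of_subset_union (v := A ⁻¹' (((↑) : U → Mfd n k) '' (range u)ᶜ))
    hh.isOpen_range (hopen.preimage hA) ?_ ?_ ?_ hconn
  · rw [Set.disjoint_left]
    rintro z ⟨s, rfl⟩ ⟨y, hy, hyA⟩
    apply hy
    refine ⟨s, Subtype.ext ?_⟩
    rw [hyA, huA]
  · intro z hz
    by_cases hzr : z ∈ range h
    · exact Or.inl hzr
    · refine Or.inr ⟨⟨A z, hBU hz⟩, ?_, rfl⟩
      rintro ⟨s, hs⟩
      apply hzr
      refine ⟨s, hAi ?_⟩
      rw [← huA, hs]
  · refine ⟨h s₀, ?_, mem_range_self _⟩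
    rw [mem_preimage, ← huA]
    exact hs₀

/-- A curve contained in half of a slice does not meet the ball. -/
theorem no_half_slice [PreconnectedSpace S] (hn : 2 ≤ n) {r : ℝ}
    (hball : Metric.ball (0 : Mfd n k) r ⊆ U) (hu : IsProperMap u) {h : S → ℂ} (hh : Hol h)
    (hnc : ¬ ∃ c, ∀ s, h s = c) (L : ℂ →L[ℝ] ℂ × ℂ) (hL : Function.Injective L) (b : ℂ × ℂ)
    (huL : ∀ s, (u s : Mfd n k) = emb k hn (L (h s) + b)) (hre : ∀ s, (h s).re ≤ 0)
    (hrefl : ∀ z, L (-conj z) + b = refl (L z + b)) {s₀ : S}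
    (hs₀ : (u s₀ : Mfd n k) ∈ Metric.ball (0 : Mfd n k) r) : False := by
  set A : ℂ → Mfd n k := fun z => emb k hn (L z + b) with hA
  have hAc : Continuous A := by fun_prop
  have hAi : Function.Injective A := by
    intro z w hzw
    have := emb_injective k hn hzw
    exact hL (add_right_cancel this)
  have hconv : Convex ℝ (A ⁻¹' Metric.ball (0 : Mfd n k) r) := by
    intro z hz w hw a c ha hc hac
    have h1 : A (a • z + c • w) = a • A z + c • A w := by
      simp only [hA]
      rw [← map_smul, ← map_smul, ← map_add]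
      congr 1
      rw [map_add, map_smul, map_smul]
      have : b = a • b + c • b := by rw [← add_smul, hac, one_smul]
      nth_rewrite 1 [this]
      module
    rw [mem_preimage, h1]
    exact convex_ball (0 : Mfd n k) r hz hw ha hc hac
  have hsub := slice_subset hu (hh.isOpenMap hnc) hAc hAi huL hball
    hconv.isPreconnected hs₀
  have hneg : ∀ z ∈ A ⁻¹' Metric.ball (0 : Mfd n k) r, z.re ≤ 0 := by
    intro z hz
    obtain ⟨s, rfl⟩ := hsub hz
    exact hre s
  have hz0 : h s₀ ∈ A ⁻¹' Metric.ball (0 : Mfd n k) r := by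
    rw [mem_preimage, hA]
    simp only
    rw [← huL]
    exact hs₀
  have hz1 : -conj (h s₀) ∈ A ⁻¹' Metric.ball (0 : Mfd n k) r := by
    rw [mem_preimage, mem_ball_zero_iff] at hz0 ⊢
    simp only [hA] at hz0 ⊢
    rw [hrefl, norm_emb_refl]
    exact hz0
  have h0 : (h s₀).re = 0 := by
    have h1 := hneg _ hz0
    have h2 := hneg _ hz1
    simp only [Complex.neg_re, Complex.conj_re] at h2
    linarith
  have hopen : IsOpen (A ⁻¹' Metric.ball (0 : Mfd n k) r) := Metric.isOpen_ball.preimage hAc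
  obtain ⟨ε, hε, hb⟩ := Metric.isOpen_iff.1 hopen _ hz0
  have hmem : h s₀ + (ε / 2 : ℝ) ∈ Metric.ball (h s₀) ε := by
    rw [Metric.mem_ball, dist_eq_norm, add_sub_cancel_left, Complex.norm_real, Real.norm_eq_abs,
      abs_of_pos (by positivity)]
    linarith
  have := hneg _ (hb hmem)
  rw [Complex.add_re, h0, Complex.ofReal_re] at this
  linarith

/-- No curve contained in the support of the tropical current meets the ball. -/
theorem IsCurve.not_subset_supp [ConnectedSpace S] (hn : 2 ≤ n) {r : ℝ}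
    (hball : Metric.ball (0 : Mfd n k) r ⊆ U) (hu : IsCurve (leafTangent n k) (stdJ n k) U S u)
    (hsupp : ∀ s, (u s : Mfd n k) ∈ supp k hn) {s₀ : S}
    (hs₀ : (u s₀ : Mfd n k) ∈ Metric.ball (0 : Mfd n k) r) : False := by
  set u1 : S → ℂ := fun s => (u s : Mfd n k).1 ⟨0, by omega⟩ with hu1
  set u2 : S → ℂ := fun s => (u s : Mfd n k).1 ⟨1, by omega⟩ with hu2
  have hh1 : Hol u1 := hu.hol_coord _
  have hh2 : Hol u2 := hu.hol_coord _
  have hemb : ∀ s, (u s : Mfd n k) = emb k hn (u1 s, u2 s) := by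
    intro s
    obtain ⟨z, hz, hzs⟩ := hsupp s
    have h1 : u1 s = z.1 := by rw [hu1]; simp only; rw [← hzs, emb_zero_coord]
    have h2 : u2 s = z.2 := by rw [hu2]; simp only; rw [← hzs, emb_one_coord]
    rw [h1, h2, ← hzs]
  have htrop : ∀ s, Trop (u1 s, u2 s) := by
    intro s
    obtain ⟨z, hz, hzs⟩ := hsupp s
    have h1 : u1 s = z.1 := by rw [hu1]; simp only; rw [← hzs, emb_zero_coord]
    have h2 : u2 s = z.2 := by rw [hu2]; simp only; rw [← hzs, emb_one_coord]
    rw [h1, h2]
    exact hz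
  have hc1 : Continuous u1 := by
    have : Continuous fun s => (u s : Mfd n k).1 :=
      continuous_fst.comp (continuous_subtype_val.comp hu.proper.continuous)
    exact (EuclideanSpace.proj (𝕜 := ℂ) (⟨0, by omega⟩ : Fin n)).continuous.comp this
  have hc2 : Continuous u2 := by
    have : Continuous fun s => (u s : Mfd n k).1 :=
      continuous_fst.comp (continuous_subtype_val.comp hu.proper.continuous)
    exact (EuclideanSpace.proj (𝕜 := ℂ) (⟨1, by omega⟩ : Fin n)).continuous.comp this
  have hh3 : Hol fun s => u1 s - u2 s := fun φ hφ => (hh1 φ hφ).sub (hh2 φ hφ)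
  have hh4 : Hol fun s => -u1 s := fun φ hφ => (hh1 φ hφ).neg
  -- one of the three closed conditions holds on a nonempty open set
  have key : (∃ t : ℝ, ∀ s, u1 s = ⟨0, t⟩) ∨ (∃ t : ℝ, ∀ s, u2 s = ⟨0, t⟩) ∨
      (∃ t : ℝ, ∀ s, u1 s - u2 s = ⟨0, t⟩) := by
    by_cases h1 : (interior {s | (u1 s).re = 0}).Nonempty
    · exact Or.inl (hh1.eq_const_of_re_eq_zero isOpen_interior h1 fun s hs =>
        interior_subset (s := {s | (u1 s).re = 0}) hs)
    by_cases h2 : (interior {s | (u2 s).re = 0}).Nonempty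
    · exact Or.inr (Or.inl
        (hh2.eq_const_of_re_eq_zero isOpen_interior h2 fun s hs =>
          interior_subset (s := {s | (u2 s).re = 0}) hs))
    right; right
    rw [not_nonempty_iff_eq_empty] at h1 h2
    have ho1 : IsOpen {s | (u1 s).re = 0}ᶜ :=
      (isClosed_eq (Complex.continuous_re.comp hc1) continuous_const).isOpen_compl
    have ho2 : IsOpen {s | (u2 s).re = 0}ᶜ :=
      (isClosed_eq (Complex.continuous_re.comp hc2) continuous_const).isOpen_compl
    have hd1 : Dense {s | (u1 s).re = 0}ᶜ := interior_eq_empty_iff_dense_compl.1 h1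
    have hd2 : Dense {s | (u2 s).re = 0}ᶜ := interior_eq_empty_iff_dense_compl.1 h2
    have hd : Dense ({s | (u1 s).re = 0}ᶜ ∩ {s | (u2 s).re = 0}ᶜ) :=
      hd1.inter_of_isOpen_left hd2 ho1
    refine hh3.eq_const_of_re_eq_zero (ho1.inter ho2) hd.nonempty fun s hs => ?_
    have ht := htrop s
    simp only [Trop] at ht
    rcases ht with ht | ht | ht
    · exact absurd ht.1 hs.1
    · exact absurd ht.1 hs.2
    · rw [Complex.sub_re, ht.1, sub_self]
  rcases key with ⟨t, ht⟩ | ⟨t, ht⟩ | ⟨t, ht⟩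
  · -- `u₁` is constant
    refine no_half_slice hn hball hu.proper hh2 ?_
      ((0 : ℂ →L[ℝ] ℂ).prod (ContinuousLinearMap.id ℝ ℂ)) ?_ (⟨0, t⟩, 0) ?_ ?_ ?_ hs₀
    · rintro ⟨c, hc⟩
      exact hu.not_const ⟨emb k hn (⟨0, t⟩, c), fun s => by rw [hemb, ht, hc]⟩
    · intro z w h
      exact congrArg Prod.snd h
    · intro s
      rw [hemb, ht]
      simp
    · intro s
      have := htrop s
      simp only [Trop, ht] at this
      rcases this with h | h | h
      · exact h.2
      · exact h.1.le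
      · exact h.1.symm.le
    · intro z
      refine Prod.ext (Complex.ext ?_ ?_) (Complex.ext ?_ ?_) <;> simp [refl]
  · -- `u₂` is constant
    refine no_half_slice hn hball hu.proper hh1 ?_
      ((ContinuousLinearMap.id ℝ ℂ).prod (0 : ℂ →L[ℝ] ℂ)) ?_ (0, ⟨0, t⟩) ?_ ?_ ?_ hs₀
    · rintro ⟨c, hc⟩
      exact hu.not_const ⟨emb k hn (c, ⟨0, t⟩), fun s => by rw [hemb, ht, hc]⟩
    · intro z w h
      exact congrArg Prod.fst h
    · intro s
      rw [hemb, ht]
      simp
    · intro s
      have := htrop s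
      simp only [Trop, ht] at this
      rcases this with h | h | h
      · exact h.1.le
      · exact h.2
      · exact h.1.le
    · intro z
      refine Prod.ext (Complex.ext ?_ ?_) (Complex.ext ?_ ?_) <;> simp [refl]
  · -- `u₁ - u₂` is constant
    have hu2' : ∀ s, u2 s = u1 s - ⟨0, t⟩ := fun s => by rw [← ht s]; ring
    refine no_half_slice hn hball hu.proper hh4 ?_
      ((-ContinuousLinearMap.id ℝ ℂ).prod (-ContinuousLinearMap.id ℝ ℂ)) ?_ (0, -⟨0, t⟩) ?_ ?_ ?_ hs₀
    · rintro ⟨c, hc⟩
      refine hu.not_const ⟨emb k hn (-c, -c - ⟨0, t⟩), fun s => ?_⟩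
      rw [hemb, hu2', ← hc s, neg_neg]
    · intro z w h
      exact neg_injective (congrArg Prod.fst h)
    · intro s
      rw [hemb, hu2']
      congr 1
      refine Prod.ext ?_ ?_
      · simp
      · simp [sub_eq_add_neg]
    · intro s
      have := htrop s
      have hre : (u1 s).re = (u2 s).re := by rw [hu2']; simp
      simp only [Trop, hre] at this
      rw [Complex.neg_re, hre]
      rcases this with h | h | h
      · rw [h.1, neg_zero]
      · rw [h.1, neg_zero]
      · linarith [h.2]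
    · intro z
      refine Prod.ext (Complex.ext ?_ ?_) (Complex.ext ?_ ?_) <;> simp [refl, add_comm]

end Pool.Agent.V8H78.LeafCurves
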