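import Pool.Agent.V8H78.LeafCurves.Piece

/-!
# The boundary of a piece
-/

open Set MeasureTheory TopologicalSpace Topology Filter
open scoped Distributions CompactConvergenceCLM Manifold ContDiff NNReal BoundedContinuousFunction

noncomputable section

namespace Pool.Agent.V8H78.LeafCurves

theorem restrict_half : (volume : Measure P).restrict half =
    ((volume : Measure ℝ).restrict (Iic 0)).prod (volume : Measure (ℝ × ℝ)) := by
  have hhalf : half = Iic (0 : ℝ) ×ˢ (univ : Set (ℝ × ℝ)) := by
    ext p; simp [half]
  rw [hhalf, Measure.volume_eq_prod, ← Measure.prod_restrict, Measure.restrict_univ]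

theorem integrable_fderiv {G : P → ℝ} (hG : ContDiff ℝ 1 G) (hc : HasCompactSupport G) (v : P) :
    Integrable fun p : P => fderiv ℝ G p v := by
  have hcont : Continuous fun p => fderiv ℝ G p v := by
    have := hG.continuous_fderiv one_ne_zero
    fun_prop
  exact hcont.integrable_of_hasCompactSupport (hc.fderiv_apply ℝ v)

/-- The integral of a transversal derivative over the half space. -/
theorem integral_half_fderiv_fst {G : P → ℝ} (hG : ContDiff ℝ 1 G) (hc : HasCompactSupport G) :
    ∫ p in half, fderiv ℝ G p (1, 0, 0) = ∫ w : ℝ × ℝ, G (0, w) := by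
  have hint : Integrable (fun p : P => fderiv ℝ G p (1, 0, 0))
      ((volume : Measure P).restrict half) := (integrable_fderiv hG hc _).integrableOn
  have hderiv : ∀ (w : ℝ × ℝ) (x : ℝ), deriv (fun x => G (x, w)) x =
      fderiv ℝ G (x, w) (1, 0, 0) := by
    intro w x
    have h1 : HasDerivAt (fun x : ℝ => ((x, w) : P)) (1, 0, 0) x :=
      (hasDerivAt_id x).prodMk (hasDerivAt_const x w)
    exact ((hG.differentiable one_ne_zero _).hasFDerivAt.comp_hasDerivAt x h1).deriv
  rw [restrict_half] at hint ⊢
  rw [integral_prod_symm _ hint]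
  refine integral_congr_ae (ae_of_all _ fun w => ?_)
  simp only
  simp_rw [← hderiv w]
  apply HasCompactSupport.integral_Iic_deriv_eq
  · fun_prop
  · refine HasCompactSupport.intro (K := Prod.fst '' tsupport G)
      (hc.isCompact.image continuous_fst) fun x hx => ?_
    by_contra hne
    exact hx ⟨(x, w), subset_tsupport _ hne, rfl⟩

/-- The integral of a tangential derivative over the half space is zero. -/
theorem integral_half_fderiv_snd {G : P → ℝ} (hG : ContDiff ℝ 1 G) (hc : HasCompactSupport G) :
    ∫ p in half, fderiv ℝ G p (0, 1, 0) = 0 := by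
  have hint : Integrable (fun p : P => fderiv ℝ G p (0, 1, 0))
      ((volume : Measure P).restrict half) := (integrable_fderiv hG hc _).integrableOn
  have hderiv : ∀ (x θ y : ℝ), deriv (fun y => G (x, y, θ)) y =
      fderiv ℝ G (x, y, θ) (0, 1, 0) := by
    intro x θ y
    have h1 : HasDerivAt (fun y : ℝ => ((x, y, θ) : P)) (0, 1, 0) y :=
      (hasDerivAt_const y x).prodMk ((hasDerivAt_id y).prodMk (hasDerivAt_const y θ))
    exact ((hG.differentiable one_ne_zero _).hasFDerivAt.comp_hasDerivAt y h1).deriv
  rw [restrict_half] at hint ⊢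
  rw [integral_prod _ hint]
  have hx : ∀ x : ℝ, ∫ w : ℝ × ℝ, fderiv ℝ G (x, w) (0, 1, 0) = 0 := by
    intro x
    have hcont : Continuous fun w : ℝ × ℝ => fderiv ℝ G (x, w) (0, 1, 0) := by
      have := hG.continuous_fderiv one_ne_zero
      fun_prop
    have hcs : HasCompactSupport fun w : ℝ × ℝ => fderiv ℝ G (x, w) (0, 1, 0) := by
      have h2 := hc.fderiv_apply ℝ (0, 1, 0)
      refine HasCompactSupport.intro (K := Prod.snd '' tsupport fun p => fderiv ℝ G p (0, 1, 0))
        (h2.isCompact.image continuous_snd) fun w hw => ?_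
      by_contra hne
      exact hw ⟨(x, w), subset_tsupport (fun p => fderiv ℝ G p (0, 1, 0)) hne, rfl⟩
    have hi : Integrable (fun w : ℝ × ℝ => fderiv ℝ G (x, w) (0, 1, 0))
        ((volume : Measure ℝ).prod volume) := hcont.integrable_of_hasCompactSupport hcs
    rw [Measure.volume_eq_prod, integral_prod_symm _ hi]
    simp_rw [← hderiv x]
    have : ∀ θ : ℝ, ∫ y : ℝ, deriv (fun y => G (x, y, θ)) y = 0 := by
      intro θ
      have hcd : ContDiff ℝ 1 fun y => G (x, y, θ) := by fun_prop
      have hcs' : HasCompactSupport fun y => G (x, y, θ) := by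
        refine HasCompactSupport.intro (K := (fun p : P => p.2.1) '' tsupport G)
          (hc.isCompact.image (by fun_prop)) fun y hy => ?_
        by_contra hne
        exact hy ⟨(x, y, θ), subset_tsupport _ hne, rfl⟩
      have htop : Tendsto (fun y => G (x, y, θ)) atTop (𝓝 0) := by
        have h3 := hcs'
        rw [hasCompactSupport_iff_eventuallyEq, Filter.coclosedCompact_eq_cocompact] at h3
        exact (h3.filter_mono _root_.atTop_le_cocompact).tendsto
      have hbot : Tendsto (fun y => G (x, y, θ)) atBot (𝓝 0) := by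
        have h3 := hcs'
        rw [hasCompactSupport_iff_eventuallyEq, Filter.coclosedCompact_eq_cocompact] at h3
        exact (h3.filter_mono _root_.atBot_le_cocompact).tendsto
      rw [integral_of_hasDerivAt_of_tendsto
        (fun y => (hcd.differentiable one_ne_zero y).hasDerivAt)
        ((hcd.continuous_deriv le_rfl).integrable_of_hasCompactSupport hcs'.deriv) hbot htop,
        sub_zero]
    simp_rw [this]
    simp
  simp_rw [hx]
  simp

variable {V : Type} [NormedAddCommGroup V] [NormedSpace ℝ V]

/-- The boundary term of the piece with parametrisation `q`. -/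
theorem piece_extDeriv (q : P →L[ℝ] V) (hq : Function.Injective q)
    (β : 𝓓((⊤ : Opens V), Alt V 1)) (γ : 𝓓((⊤ : Opens V), Alt V 2))
    (h : ∀ y, γ y = extDeriv (β : V → Alt V 1) y) :
    piece q hq γ = ∫ w : ℝ × ℝ, β (q (0, w)) ![q (0, 1, 0)] := by
  let G : V → P → ℝ := fun v p => β (q p) ![v]
  have hev : ∀ v : V, ContDiff ℝ 1 fun y => β y ![v] := by
    intro v
    have h1 : ContDiff ℝ 1 (fun y => β y) := β.contDiff.of_le (by simp)
    let T : Alt V 1 →L[ℝ] ℝ :=
      (ContinuousMultilinearMap.apply ℝ (fun _ : Fin 1 => V) ℝ ![v]).comp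
        (ContinuousAlternatingMap.toContinuousMultilinearMapCLM ℝ)
    exact T.contDiff.comp h1
  have hG : ∀ v, ContDiff ℝ 1 (G v) := fun v => (hev v).comp q.contDiff
  have hGc : ∀ v, HasCompactSupport (G v) := by
    intro v
    have h2 : HasCompactSupport fun y => β y ![v] := β.hasCompactSupport.mono (by
      intro y hy h0
      apply hy
      simp [h0])
    exact h2.comp_isClosedEmbedding (q.toLinearMap.isClosedEmbedding_of_injective
      (LinearMap.ker_eq_bot.2 hq))
  have hfun : ∀ p, pieceFun q γ p = fderiv ℝ (G (q (0, 1, 0))) p (1, 0, 0) -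
      fderiv ℝ (G (q (1, 0, 0))) p (0, 1, 0) := by
    intro p
    have hd : ∀ v w, fderiv ℝ (G v) p w = fderiv ℝ (fun y => β y ![v]) (q p) (q w) := by
      intro v w
      have := ((hev v).differentiable one_ne_zero (q p)).hasFDerivAt.comp p q.hasFDerivAt
      rw [show G v = (fun y => β y ![v]) ∘ q from rfl, this.fderiv]
      rfl
    rw [pieceFun, h, extDeriv_apply (β.contDiff.differentiable (by simp) _), Fin.sum_univ_two,
      hd, hd]
    have h0 : (0 : Fin 2).removeNth ![q (1, 0, 0), q (0, 1, 0)] = ![q (0, 1, 0)] := by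
      funext i; fin_cases i; rfl
    have h1 : (1 : Fin 2).removeNth ![q (1, 0, 0), q (0, 1, 0)] = ![q (1, 0, 0)] := by
      funext i; fin_cases i; rfl
    rw [h0, h1]
    simp [sub_eq_add_neg]
  rw [piece_apply]
  simp_rw [hfun]
  rw [integral_sub (integrable_fderiv (hG _) (hGc _) _).integrableOn
    (integrable_fderiv (hG _) (hGc _) _).integrableOn, integral_half_fderiv_fst (hG _) (hGc _),
    integral_half_fderiv_snd (hG _) (hGc _), sub_zero]

end Pool.Agent.V8H78.LeafCurves
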