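import Mathlib

/-!
# Leafwise complex cycles and pseudoholomorphic curves: definitions

The definitions are for a real normed space `V` (the manifold), foliated by the translates of a
subspace `T`, with the translation invariant leafwise complex structure given by an endomorphism `J`
of which only the restriction to `T` matters.
-/

open Set MeasureTheory TopologicalSpace Topology Filter
open scoped Distributions CompactConvergenceCLM Manifold ContDiff NNReal

noncomputable section

namespace Pool.Agent.V8H78.LeafCurves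

/-- The alternating `p`-forms on the tangent space of `V` at a point, which is `V`. -/
abbrev Alt (V : Type) [NormedAddCommGroup V] [NormedSpace ℝ V] (p : ℕ) : Type :=
  V [⋀^Fin p]→L[ℝ] ℝ

variable {V : Type} [NormedAddCommGroup V] [NormedSpace ℝ V]

/-- The `2`-vector `v ∧ w`. The space `Λ² V` is identified with the dual of the space of
alternating bilinear forms on `V` (for `V` finite-dimensional). -/
def wedge (v w : V) : Alt V 2 →L[ℝ] ℝ :=
  (ContinuousMultilinearMap.apply ℝ (fun _ : Fin 2 => V) ℝ ![v, w]).comp
    (ContinuousAlternatingMap.toContinuousMultilinearMapCLM ℝ)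

/-- The structure cone `C_y ⊆ Λ² V`: the closed convex cone generated by the `v ∧ J v`, for `v`
tangent to the leaf through `y`, that is, in `T`. It does not depend on `y`. -/
def structureCone (T : Submodule ℝ V) (J : V →L[ℝ] V) : Set (Alt V 2 →L[ℝ] ℝ) :=
  closure (Submodule.span ℝ≥0 {ξ : Alt V 2 →L[ℝ] ℝ | ∃ v ∈ T, ξ = wedge v (J v)} :
    Set (Alt V 2 →L[ℝ] ℝ))

/-- The `p`-currents on the open set `U`: the continuous linear functionals on the compactly
supported smooth `p`-forms on `U`, with the topology of uniform convergence on compact sets (which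
is the strong dual topology). -/
abbrev Current (p : ℕ) (U : Opens V) : Type := 𝓓(U, Alt V p) →L_c[ℝ] ℝ

/-- The Dirac current at `y` of `ξ ∈ Λ² V`. -/
def dirac (y : V) (ξ : Alt V 2 →L[ℝ] ℝ) : Current 2 (⊤ : Opens V) where
  toFun α := ξ (α y)
  map_add' α β := by simp
  map_smul' a α := by simp
  cont := by fun_prop

/-- `C`-currents: the elements of the closed convex cone generated by the Dirac currents of the
elements of the structure cone. -/
def IsConeCurrent (T : Submodule ℝ V) (J : V →L[ℝ] V) (c : Current 2 (⊤ : Opens V)) : Prop :=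
  c ∈ closure (Submodule.span ℝ≥0 {d : Current 2 (⊤ : Opens V) |
    ∃ y : V, ∃ ξ ∈ structureCone T J, d = dirac y ξ} : Set (Current 2 (⊤ : Opens V)))

/-- A `2`-current is a cycle if it vanishes on the exterior derivatives of all compactly supported
smooth `1`-forms. -/
def IsCycle (c : Current 2 (⊤ : Opens V)) : Prop :=
  ∀ (β : 𝓓((⊤ : Opens V), Alt V 1)) (γ : 𝓓((⊤ : Opens V), Alt V 2)),
    (∀ y, γ y = extDeriv (β : V → Alt V 1) y) → c γ = 0

/-- `u : S → U` is a proper somewhere injective pseudoholomorphic map from the Riemann surface `S`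
to the open set `U`, with image in one leaf. The conditions on derivatives are expressed in the
charts `φ` of the atlas of `S`: the map `u ∘ φ⁻¹` is smooth and its derivative `D` satisfies
`D (i v) = J (D v)`; somewhere injective means that there is a point with nonzero derivative which
is the only point with its image. -/
structure IsCurve (T : Submodule ℝ V) (J : V →L[ℝ] V) (U : Opens V) (S : Type)
    [TopologicalSpace S] [ChartedSpace ℂ S] (u : S → U) : Prop where
  proper : IsProperMap u
  leaf : ∃ w : V, ∀ s, (u s : V) - w ∈ T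
  smooth : ∀ φ ∈ atlas ℂ S, ContDiffOn ℝ ∞ (fun z => (u (φ.symm z) : V)) φ.target
  holomorphic : ∀ φ ∈ atlas ℂ S, ∀ z ∈ φ.target, ∀ v : ℂ,
    fderiv ℝ (fun z => (u (φ.symm z) : V)) z (Complex.I * v) =
      J (fderiv ℝ (fun z => (u (φ.symm z) : V)) z v)
  somewhere_injective : ∃ φ ∈ atlas ℂ S, ∃ z ∈ φ.target,
    fderiv ℝ (fun z => (u (φ.symm z) : V)) z ≠ 0 ∧ ∀ s, u s = u (φ.symm z) → s = φ.symm z

/-- The integral `∫_S u^* α`, computed with a partition of unity `g` on `S` subordinate to
the domains of the charts `φ i`: the pullback of `α` is `α (∂ₓ u, ∂_y u) dx dy` in a chart. -/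
def integral {S : Type} [TopologicalSpace S] {ι : Type} (g : PartitionOfUnity ι S univ)
    (φ : ι → OpenPartialHomeomorph S ℂ) (u : S → V) (α : V → Alt V 2) : ℝ :=
  ∑ᶠ i, ∫ z in (φ i).target, g i ((φ i).symm z) *
    α (u ((φ i).symm z)) ![fderiv ℝ (fun z => u ((φ i).symm z)) z 1,
      fderiv ℝ (fun z => u ((φ i).symm z)) z Complex.I]

/-- The current `c'` on `U` is (the integration current `α ↦ ∫_S u^* α` of) a pseudoholomorphic
curve in `U`: the image of a proper somewhere injective pseudoholomorphic map `u : S → U`, with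
image in one leaf, from a connected Riemann surface `S`. -/
def IsCurveCurrent (T : Submodule ℝ V) (J : V →L[ℝ] V) (U : Opens V) (c' : Current 2 U) : Prop :=
  ∃ (S : Type) (_ : TopologicalSpace S) (_ : ChartedSpace ℂ S) (u : S → U),
    T2Space S ∧ ConnectedSpace S ∧ IsManifold 𝓘(ℂ, ℂ) ω S ∧ IsCurve T J U S u ∧
    ∃ (ι : Type) (g : PartitionOfUnity ι S univ) (φ : ι → OpenPartialHomeomorph S ℂ),
      (∀ i, φ i ∈ atlas ℂ S) ∧ g.IsSubordinate (fun i => (φ i).source) ∧
      ∀ α : 𝓓(U, Alt V 2), c' α = integral g φ (fun s => (u s : V)) α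

/-- The set `P_U` of the pseudoholomorphic curves in `U`, viewed as currents on `U`. -/
def CurveSpace (T : Submodule ℝ V) (J : V →L[ℝ] V) (U : Opens V) : Type :=
  {c' : Current 2 U // IsCurveCurrent T J U c'}

/-- The current `c` on `M` is, on `U`, a superposition of pseudoholomorphic curves with respect to
some non-negative measure `ν` on `P_U`: one has `c(α) = ∫ c'(α) dν(c')` for all compactly
supported smooth `2`-forms `α` on `U`. The sigma-algebra `m` of the measure is arbitrary; for
instance it may be the Borel sigma-algebra of `P_U`. -/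
def IsSuperpositionOn (T : Submodule ℝ V) (J : V →L[ℝ] V) (c : Current 2 (⊤ : Opens V))
    (U : Opens V) : Prop :=
  ∃ (m : MeasurableSpace (CurveSpace T J U)) (ν : @Measure (CurveSpace T J U) m),
    ∀ α : 𝓓(U, Alt V 2), Integrable (fun c' : CurveSpace T J U => c'.1 α) ν ∧
      c (TestFunction.monoCLM ℝ α) = ∫ c' : CurveSpace T J U, c'.1 α ∂ν

/-- There is a `C`-cycle on `V` which is on no open neighbourhood `U` of `x` a superposition of
pseudoholomorphic curves with respect to some non-negative measure on `P_U`. -/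
def FailsAt (T : Submodule ℝ V) (J : V →L[ℝ] V) (x : V) : Prop :=
  ∃ c : Current 2 (⊤ : Opens V), IsConeCurrent T J c ∧ IsCycle c ∧
    ∀ U : Opens V, x ∈ U → ¬ IsSuperpositionOn T J c U

/-- The manifold `ℂⁿ × ℝᵏ`. -/
abbrev Mfd (n k : ℕ) : Type := EuclideanSpace ℂ (Fin n) × EuclideanSpace ℝ (Fin k)

/-- The tangent space `ℂⁿ × 0` of the leaves `ℂⁿ × {w}`. -/
def leafTangent (n k : ℕ) : Submodule ℝ (Mfd n k) :=
  LinearMap.ker (LinearMap.snd ℝ (EuclideanSpace ℂ (Fin n)) (EuclideanSpace ℝ (Fin k)))

/-- The leafwise complex structure `J (v, 0) = (i v, 0)`. -/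
def stdJ (n k : ℕ) : Mfd n k →L[ℝ] Mfd n k :=
  ((Complex.I • ContinuousLinearMap.fst ℝ (EuclideanSpace ℂ (Fin n)) (EuclideanSpace ℝ (Fin k)))).prod
    0

end Pool.Agent.V8H78.LeafCurves
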