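import Pool.Agent.V8H78.LeafCurves.Curve

/-!
# Testing curves and the tropical current against multiples of the Kähler form
-/

open Set MeasureTheory TopologicalSpace Topology Filter
open scoped Distributions CompactConvergenceCLM Manifold ContDiff NNReal BoundedContinuousFunction
open scoped ComplexConjugate

noncomputable section

namespace Pool.Agent.V8H78.LeafCurves

variable (n k : ℕ)

/-- The Kähler form, as an alternating form. -/
def kahlerAux : Mfd n k [⋀^Fin 2]→ₗ[ℝ] ℝ where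
  toFun m := (inner ℂ (m 0).1 (m 1).1).im
  map_update_add' m i x y := by
    fin_cases i
    · simp
    · simp
  map_update_smul' m i c x := by
    fin_cases i
    · simp only [Fin.zero_eta, Fin.isValue, Function.update_self, Prod.smul_fst, ne_eq,
        one_ne_zero, not_false_eq_true, Function.update_of_ne, smul_eq_mul]
      rw [← Complex.coe_smul, inner_smul_left]
      simp
    · simp only [Fin.mk_one, Fin.isValue, ne_eq, zero_ne_one, not_false_eq_true,
        Function.update_of_ne, Function.update_self, Prod.smul_fst, smul_eq_mul]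
      rw [← Complex.coe_smul, inner_smul_right]
      simp
  map_eq_zero_of_eq' m i j hij hne := by
    have h : m 0 = m 1 := by
      fin_cases i <;> fin_cases j <;> simp_all
    rw [h]
    exact inner_self_im (𝕜 := ℂ) _

/-- The Kähler form. -/
def kahler : Alt (Mfd n k) 2 :=
  (kahlerAux n k).mkContinuous 1 (by
    intro m
    have h1 : |(inner ℂ (m 0).1 (m 1).1).im| ≤ ‖(m 0).1‖ * ‖(m 1).1‖ :=
      (Complex.abs_im_le_norm _).trans (norm_inner_le_norm _ _)
    have h2 : ‖(m 0).1‖ ≤ ‖m 0‖ := norm_fst_le _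
    have h3 : ‖(m 1).1‖ ≤ ‖m 1‖ := norm_fst_le _
    rw [Fin.prod_univ_two, one_mul]
    exact h1.trans (by gcongr))

variable {n k}

theorem kahler_apply (v w : Mfd n k) : kahler n k ![v, w] = (inner ℂ v.1 w.1).im := rfl

theorem kahler_J (v : Mfd n k) : kahler n k ![v, stdJ n k v] = ‖v.1‖ ^ 2 := by
  rw [kahler_apply]
  change (inner ℂ v.1 (Complex.I • v.1)).im = _
  rw [inner_smul_right, inner_self_eq_norm_sq_to_K, Complex.mul_im]
  simp [← Complex.ofReal_pow]

variable {U : Opens (Mfd n k)}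

/-- The multiple of the Kähler form by a test function. -/
def testForm (f : 𝓓(U, ℝ)) : 𝓓(U, Alt (Mfd n k) 2) :=
  TestFunction.postcompCLM (ContinuousLinearMap.toSpanSingleton ℝ (kahler n k)) f

theorem testForm_apply (f : 𝓓(U, ℝ)) (y : Mfd n k) : testForm f y = f y • kahler n k := rfl

theorem pieceFun_testForm (q : P →L[ℝ] Mfd n k) (hq : q (0, 1, 0) = stdJ n k (q (1, 0, 0)))
    (f : 𝓓(U, ℝ)) (p : P) :
    pieceFun q (TestFunction.monoCLM ℝ (testForm f) : 𝓓((⊤ : Opens (Mfd n k)), Alt (Mfd n k) 2)) p =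
      f (q p) * ‖(q (1, 0, 0)).1‖ ^ 2 := by
  have hmono : ∀ y, (TestFunction.monoCLM ℝ (testForm f) :
      𝓓((⊤ : Opens (Mfd n k)), Alt (Mfd n k) 2)) y = f y • kahler n k := by
    intro y
    simp [testForm_apply]
  rw [pieceFun, hmono, hq, ContinuousAlternatingMap.smul_apply, kahler_J, smul_eq_mul]

theorem tropical_testForm (hn : 2 ≤ n) (f : 𝓓(U, ℝ)) :
    tropical k hn (TestFunction.monoCLM ℝ (testForm f)) =
      (∫ p in half, f (q0 k hn p) * ‖(q0 k hn (1, 0, 0)).1‖ ^ 2) +
      (∫ p in half, f (q1 k hn p) * ‖(q1 k hn (1, 0, 0)).1‖ ^ 2) +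
      ∫ p in half, f (q2 k hn p) * ‖(q2 k hn (1, 0, 0)).1‖ ^ 2 := by
  rw [tropical_apply]
  simp_rw [pieceFun_testForm _ (q0_J k hn), pieceFun_testForm _ (q1_J k hn),
    pieceFun_testForm _ (q2_J k hn)]

theorem q0_mem_supp (hn : 2 ≤ n) {p : P} (hp : p ∈ half) : q0 k hn p ∈ supp k hn :=
  ⟨r0 p, Or.inl ⟨rfl, hp⟩, rfl⟩

theorem q1_mem_supp (hn : 2 ≤ n) {p : P} (hp : p ∈ half) : q1 k hn p ∈ supp k hn :=
  ⟨r1 p, Or.inr (Or.inl ⟨rfl, hp⟩), rfl⟩

theorem q2_mem_supp (hn : 2 ≤ n) {p : P} (hp : p ∈ half) : q2 k hn p ∈ supp k hn := by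
  refine ⟨r2 p, Or.inr (Or.inr ?_), rfl⟩
  rw [r2_apply]
  have : p.1 ≤ 0 := hp
  simp only [true_and]
  linarith

/-- The tropical current vanishes on the test forms vanishing on its support. -/
theorem tropical_testForm_eq_zero (hn : 2 ≤ n) (f : 𝓓(U, ℝ)) (hf : ∀ y ∈ supp k hn, f y = 0) :
    tropical k hn (TestFunction.monoCLM ℝ (testForm f)) = 0 := by
  rw [tropical_testForm, setIntegral_eq_zero_of_forall_eq_zero,
    setIntegral_eq_zero_of_forall_eq_zero, setIntegral_eq_zero_of_forall_eq_zero]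
  · simp
  · intro p hp
    rw [hf _ (q2_mem_supp hn hp), zero_mul]
  · intro p hp
    rw [hf _ (q1_mem_supp hn hp), zero_mul]
  · intro p hp
    rw [hf _ (q0_mem_supp hn hp), zero_mul]

/-- The tropical current is positive on the nonnegative test forms which are positive at `0`. -/
theorem tropical_testForm_pos (hn : 2 ≤ n) (f : 𝓓(U, ℝ)) (hf : ∀ y, 0 ≤ f y) (h0 : 0 < f 0) :
    0 < tropical k hn (TestFunction.monoCLM ℝ (testForm f)) := by
  have hnn : ∀ (q : P →L[ℝ] Mfd n k), 0 ≤ ∫ p in half, f (q p) * ‖(q (1, 0, 0)).1‖ ^ 2 :=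
    fun q => integral_nonneg fun p => mul_nonneg (hf _) (by positivity)
  have hpos : 0 < ∫ p in half, f (q0 k hn p) * ‖(q0 k hn (1, 0, 0)).1‖ ^ 2 := by
    have hne : (0 : ℝ) < ‖(q0 k hn (1, 0, 0)).1‖ ^ 2 := by
      have : (q0 k hn (1, 0, 0)).1 ≠ 0 := by
        intro h
        have h1 := emb_one_coord k hn (r0 (1, 0, 0))
        rw [← q0_apply, h, r0_apply] at h1
        have h2 := congrArg Complex.re h1
        simp at h2
      positivity
    have hcont : Continuous fun p => f (q0 k hn p) * ‖(q0 k hn (1, 0, 0)).1‖ ^ 2 :=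
      (f.continuous.comp (q0 k hn).continuous).mul continuous_const
    have hint : Integrable fun p => f (q0 k hn p) * ‖(q0 k hn (1, 0, 0)).1‖ ^ 2 := by
      have h1 := integrable_pieceFun (q0 k hn) (q0_injective k hn)
        (TestFunction.monoCLM ℝ (testForm f))
      have h2 : pieceFun (q0 k hn) (TestFunction.monoCLM ℝ (testForm f) :
          𝓓((⊤ : Opens (Mfd n k)), Alt (Mfd n k) 2)) =
          fun p => f (q0 k hn p) * ‖(q0 k hn (1, 0, 0)).1‖ ^ 2 :=
        funext fun p => pieceFun_testForm _ (q0_J k hn) f p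
      rwa [h2] at h1
    rw [setIntegral_pos_iff_support_of_nonneg_ae
      (ae_of_all _ fun p => mul_nonneg (hf _) (by positivity)) hint.integrableOn]
    have hopen : IsOpen ({p : P | 0 < f (q0 k hn p)} ∩ {p : P | p.1 < 0}) :=
      (isOpen_lt continuous_const (f.continuous.comp (q0 k hn).continuous)).inter
        (isOpen_lt continuous_fst continuous_const)
    have hnonempty : ({p : P | 0 < f (q0 k hn p)} ∩ {p : P | p.1 < 0}).Nonempty := by
      have hc : Continuous fun x : ℝ => f (q0 k hn (x, 0, 0)) :=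
        f.continuous.comp ((q0 k hn).continuous.comp (by fun_prop))
      have hev : ∀ᶠ x : ℝ in 𝓝 0, 0 < f (q0 k hn (x, 0, 0)) := by
        refine hc.continuousAt.eventually (lt_mem_nhds ?_)
        have : q0 k hn (0, 0, 0) = 0 := map_zero _
        change 0 < f (q0 k hn (0, 0, 0))
        rwa [this]
      have hev2 : ∀ᶠ x : ℝ in 𝓝[<] 0, 0 < f (q0 k hn (x, 0, 0)) ∧ x < 0 :=
        (hev.filter_mono nhdsWithin_le_nhds).and self_mem_nhdsWithin
      obtain ⟨x, hx1, hx2⟩ := hev2.exists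
      exact ⟨(x, 0, 0), hx1, hx2⟩
    refine (hopen.measure_pos volume hnonempty).trans_le (measure_mono ?_)
    rintro p ⟨hp1, hp2⟩
    exact ⟨(mul_pos hp1 hne).ne', show p.1 ≤ 0 from le_of_lt hp2⟩
  rw [tropical_testForm]
  have h1 := hnn (q1 k hn)
  have h2 := hnn (q2 k hn)
  linarith

end Pool.Agent.V8H78.LeafCurves
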