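import Pool.Agent.V8H78.LeafCurves.Cone
import Pool.Agent.V8H78.LeafCurves.Defs

/-!
# The pieces of the tropical current
-/

open Set MeasureTheory TopologicalSpace Topology Filter
open scoped Distributions CompactConvergenceCLM Manifold ContDiff NNReal BoundedContinuousFunction

noncomputable section

namespace Pool.Agent.V8H78.LeafCurves

section Weight

variable {E F : Type*} [NormedAddCommGroup E] [NormedSpace ℝ E] [NormedAddCommGroup F]
  [NormedSpace ℝ F]

/-- The weight `(1 + ‖y‖) ^ 4`. -/
def weight (y : E) : ℝ := (1 + ‖y‖) ^ (4 : ℝ)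

omit [NormedSpace ℝ E] in
theorem weight_pos (y : E) : 0 < weight y := by
  unfold weight; positivity

omit [NormedSpace ℝ E] in
theorem continuous_weight : Continuous (weight : E → ℝ) := by
  unfold weight
  refine Continuous.rpow_const (by fun_prop) fun y => Or.inl ?_
  positivity

theorem weighted_bound (α : 𝓓((⊤ : Opens E), F)) : ∃ C, ∀ y, ‖weight y • α y‖ ≤ C :=
  (α.hasCompactSupport.smul_left (f := weight)).exists_bound_of_continuous
    (continuous_weight.smul α.continuous)

/-- The bounded continuous function `y ↦ weight y • α y`. -/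
def weighted (α : 𝓓((⊤ : Opens E), F)) : E →ᵇ F :=
  BoundedContinuousFunction.ofNormedAddCommGroup (fun y => weight y • α y)
    (continuous_weight.smul α.continuous) (weighted_bound α).choose (weighted_bound α).choose_spec

@[simp] theorem weighted_apply (α : 𝓓((⊤ : Opens E), F)) (y : E) :
    weighted α y = weight y • α y := rfl

/-- `weighted` as a continuous linear map. -/
def weightedCLM : 𝓓((⊤ : Opens E), F) →L[ℝ] (E →ᵇ F) :=
  TestFunction.mkCLM ℝ weighted (fun f g => by ext y; simp) (fun c f => by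
    ext y
    exact smul_comm (weight y) c (f y)) (by
    intro K hK
    obtain ⟨M, hM⟩ := K.isCompact.exists_bound_of_continuousOn
      (continuous_weight (E := E)).continuousOn
    let w : E →ᵇ ℝ := BoundedContinuousFunction.ofNormedAddCommGroup
      (fun y => min (weight y) |M|) (continuous_weight.min continuous_const) |M| (fun y => by
        rw [Real.norm_eq_abs, abs_of_nonneg (le_min (weight_pos y).le (abs_nonneg _))]
        exact min_le_right _ _)
    have : (weighted ∘ TestFunction.ofSupportedIn hK : 𝓓_{K}(E, F) → (E →ᵇ F)) =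
        fun f => w • ContDiffMapSupportedIn.toBoundedContinuousFunctionCLM ℝ f := by
      funext f
      ext y
      change weight y • f y = w y • f y
      by_cases hy : y ∈ K
      · have h1 : weight y ≤ |M| := by
          have := hM y hy
          rw [Real.norm_eq_abs, abs_of_pos (weight_pos y)] at this
          exact this.trans (le_abs_self _)
        have h2 : w y = weight y := min_eq_left h1
        rw [h2]
      · have : f y = 0 := f.zero_on_compl hy
        simp [this]
    rw [this]
    fun_prop)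

@[simp] theorem weightedCLM_apply (α : 𝓓((⊤ : Opens E), F)) (y : E) :
    weightedCLM α y = weight y • α y := rfl

theorem norm_apply_le (α : 𝓓((⊤ : Opens E), F)) (y : E) :
    ‖α y‖ ≤ (weight y)⁻¹ * ‖weightedCLM α‖ := by
  have h := (weightedCLM α).norm_coe_le_norm y
  rw [weightedCLM_apply, norm_smul, Real.norm_eq_abs, abs_of_pos (weight_pos y)] at h
  rw [inv_mul_eq_div, le_div_iff₀ (weight_pos y), mul_comm]
  exact h

theorem exists_norm_weightedCLM_le {K : Set 𝓓((⊤ : Opens E), F)} (hK : IsCompact K) :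
    ∃ M, ∀ α ∈ K, ‖weightedCLM α‖ ≤ M := by
  obtain ⟨M, hM⟩ := (hK.image (weightedCLM (E := E) (F := F)).continuous).isBounded.exists_norm_le
  exact ⟨M, fun α hα => hM _ (mem_image_of_mem _ hα)⟩

end Weight

variable {V : Type} [NormedAddCommGroup V] [NormedSpace ℝ V]

/-- The parameter space of the pieces, with coordinates `(x, y, θ)`. -/
abbrev P : Type := ℝ × ℝ × ℝ

instance : (volume : Measure P).IsAddHaarMeasure := Measure.prod.instIsAddHaarMeasure _ _

/-- The half space `x ≤ 0`. -/
def half : Set P := {p | p.1 ≤ 0}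

theorem measurableSet_half : MeasurableSet half :=
  measurableSet_le measurable_fst measurable_const

/-- The integrand of the piece with parametrisation `q`. -/
def pieceFun (q : P →L[ℝ] V) (α : V → Alt V 2) (p : P) : ℝ :=
  α (q p) ![q (1, 0, 0), q (0, 1, 0)]

theorem pieceFun_bound (q : P →L[ℝ] V) (hq : Function.Injective q) :
    ∃ B : ℝ, 0 ≤ B ∧ ∀ (α : 𝓓((⊤ : Opens V), Alt V 2)) (p : P),
      |pieceFun q α p| ≤ B * (1 + ‖p‖) ^ (-(4 : ℝ)) * ‖weightedCLM α‖ := by
  obtain ⟨K, hK0, hK⟩ := q.toLinearMap.exists_antilipschitzWith (LinearMap.ker_eq_bot.2 hq)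
  have hK' : ∀ p : P, ‖p‖ ≤ K * ‖q p‖ := fun p => by
    have := hK.le_mul_dist p 0
    simpa [dist_eq_norm] using this
  set M : ℝ := max 1 K with hM
  have hM1 : (1 : ℝ) ≤ M := le_max_left _ _
  have hM0 : (0 : ℝ) < M := by linarith
  have hMK : (K : ℝ) ≤ M := le_max_right _ _
  refine ⟨M ^ (4 : ℝ) * (‖q (1, 0, 0)‖ * ‖q (0, 1, 0)‖), by positivity, fun α p => ?_⟩
  have h1 : |pieceFun q α p| ≤ ‖α (q p)‖ * (‖q (1, 0, 0)‖ * ‖q (0, 1, 0)‖) := by
    have := (α (q p)).le_opNorm ![q (1, 0, 0), q (0, 1, 0)]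
    simpa [pieceFun, Fin.prod_univ_two] using this
  have h2 : ‖α (q p)‖ ≤ (weight (q p))⁻¹ * ‖weightedCLM α‖ := norm_apply_le α (q p)
  have h3 : (weight (q p))⁻¹ ≤ M ^ (4 : ℝ) * (1 + ‖p‖) ^ (-(4 : ℝ)) := by
    have h4 : 1 + ‖p‖ ≤ M * (1 + ‖q p‖) := by
      have := hK' p
      have h5 : (K : ℝ) * ‖q p‖ ≤ M * ‖q p‖ := by gcongr
      nlinarith [norm_nonneg (q p)]
    have h6 : (1 + ‖p‖) ^ (4 : ℝ) ≤ M ^ (4 : ℝ) * weight (q p) := by
      unfold weight
      rw [← Real.mul_rpow hM0.le (by positivity)]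
      exact Real.rpow_le_rpow (by positivity) h4 (by norm_num)
    rw [Real.rpow_neg (by positivity), inv_le_iff_one_le_mul₀ (weight_pos _)]
    rw [mul_right_comm, ← div_eq_mul_inv, le_div_iff₀ (by positivity), one_mul]
    exact h6
  calc |pieceFun q α p| ≤ ‖α (q p)‖ * (‖q (1, 0, 0)‖ * ‖q (0, 1, 0)‖) := h1
    _ ≤ ((M ^ (4 : ℝ) * (1 + ‖p‖) ^ (-(4 : ℝ))) * ‖weightedCLM α‖) *
        (‖q (1, 0, 0)‖ * ‖q (0, 1, 0)‖) := by
      gcongr
      exact h2.trans (by gcongr)
    _ = _ := by ring

theorem integrable_bound : Integrable (fun p : P => (1 + ‖p‖) ^ (-(4 : ℝ))) := by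
  apply integrable_one_add_norm
  simp
  norm_num

theorem continuous_pieceFun (q : P →L[ℝ] V) (α : 𝓓((⊤ : Opens V), Alt V 2)) :
    Continuous (pieceFun q α) := by
  unfold pieceFun
  have : Continuous fun p => α (q p) := α.continuous.comp q.continuous
  fun_prop

theorem integrable_pieceFun (q : P →L[ℝ] V) (hq : Function.Injective q)
    (α : 𝓓((⊤ : Opens V), Alt V 2)) : Integrable (pieceFun q α) := by
  obtain ⟨B, hB, hb⟩ := pieceFun_bound q hq
  refine ((integrable_bound.const_mul B).mul_const ‖weightedCLM α‖).mono'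
    (continuous_pieceFun q α).aestronglyMeasurable (ae_of_all _ fun p => ?_)
  exact hb α p

/-- The piece of the current with parametrisation `q`, as a linear functional. -/
def pieceLM (q : P →L[ℝ] V) (hq : Function.Injective q) :
    𝓓((⊤ : Opens V), Alt V 2) →ₗ[ℝ] ℝ where
  toFun α := ∫ p in half, pieceFun q α p
  map_add' α β := by
    rw [← integral_add (integrable_pieceFun q hq α).integrableOn
      (integrable_pieceFun q hq β).integrableOn]
    simp [pieceFun]
  map_smul' a α := by
    rw [RingHom.id_apply, smul_eq_mul, ← integral_const_mul]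
    simp [pieceFun]

theorem continuous_pieceLM (q : P →L[ℝ] V) (hq : Function.Injective q) :
    Continuous (pieceLM q hq) := by
  obtain ⟨B, hB, hb⟩ := pieceFun_bound q hq
  set I : ℝ := ∫ p in half, B * (1 + ‖p‖) ^ (-(4 : ℝ)) with hI
  have hbound : ∀ α, ‖pieceLM q hq α‖ ≤ I * ‖weightedCLM α‖ := by
    intro α
    rw [hI, ← integral_mul_const]
    refine (norm_integral_le_of_norm_le ((integrable_bound.const_mul B).mul_const _).integrableOn
      (ae_of_all _ fun p => hb α p))
  apply continuous_of_continuousAt_zero (pieceLM q hq)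
  rw [ContinuousAt, map_zero]
  refine squeeze_zero_norm hbound ?_
  have hc : Continuous fun α : 𝓓((⊤ : Opens V), Alt V 2) => I * ‖weightedCLM α‖ := by
    fun_prop
  simpa using hc.tendsto 0

/-- The piece of the current with parametrisation `q`. -/
def piece (q : P →L[ℝ] V) (hq : Function.Injective q) :
    Current 2 (⊤ : Opens V) :=
  { pieceLM q hq with cont := continuous_pieceLM q hq }

theorem piece_apply (q : P →L[ℝ] V) (hq : Function.Injective q)
    (α : 𝓓((⊤ : Opens V), Alt V 2)) :
    piece q hq α = ∫ p in half, pieceFun q α p := rfl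

theorem wedge_apply (v w : V) (a : Alt V 2) : wedge v w a = a ![v, w] := rfl

theorem dirac_apply (y : V) (ξ : Alt V 2 →L[ℝ] ℝ)
    (α : 𝓓((⊤ : Opens V), Alt V 2)) : dirac y ξ α = ξ (α y) := rfl

/-- A piece whose parametrisation is holomorphic in `x + i y` is a `C`-current. -/
theorem isConeCurrent_piece {T : Submodule ℝ V} {J : V →L[ℝ] V} (q : P →L[ℝ] V)
    (hq : Function.Injective q) (hleaf : q (1, 0, 0) ∈ T)
    (hJ : q (0, 1, 0) = J (q (1, 0, 0))) : IsConeCurrent T J (piece q hq) := by
  refine mem_closure_span_of_integral (μ := (volume : Measure P).restrict half) _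
    (fun p => dirac (q p) (wedge (q (1, 0, 0)) (q (0, 1, 0)))) ?_ ?_ _ ?_ ?_
  · intro p
    refine ⟨q p, _, ?_, rfl⟩
    exact subset_closure (Submodule.subset_span ⟨q (1, 0, 0), hleaf, by rw [hJ]⟩)
  · simp only [dirac_apply]
    have : Continuous fun z : 𝓓((⊤ : Opens V), Alt V 2) × P => z.1 (q z.2) := by
      fun_prop
    fun_prop
  · intro α
    rfl
  · intro K hK
    obtain ⟨B, hB, hb⟩ := pieceFun_bound q hq
    obtain ⟨M, hM⟩ := exists_norm_weightedCLM_le hK
    refine ⟨fun p => B * (1 + ‖p‖) ^ (-(4 : ℝ)) * M,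
      ((integrable_bound.const_mul B).mul_const M).integrableOn, fun α hα p => ?_⟩
    refine (hb α p).trans ?_
    exact mul_le_mul_of_nonneg_left (hM α hα) (by positivity)

theorem IsConeCurrent.add {T : Submodule ℝ V} {J : V →L[ℝ] V} {c₁ c₂ : Current 2 (⊤ : Opens V)}
    (h₁ : IsConeCurrent T J c₁) (h₂ : IsConeCurrent T J c₂) : IsConeCurrent T J (c₁ + c₂) :=
  map_mem_closure₂ continuous_add h₁ h₂ fun _ ha _ hb => Submodule.add_mem _ ha hb

end Pool.Agent.V8H78.LeafCurves
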