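import Pool.Agent.V8H78.LeafCurves.Kahler

/-!
# Testing curves against multiples of the Kähler form
-/

open Set MeasureTheory TopologicalSpace Topology Filter
open scoped Distributions CompactConvergenceCLM Manifold ContDiff NNReal BoundedContinuousFunction
open scoped ComplexConjugate

noncomputable section

namespace Pool.Agent.V8H78.LeafCurves

variable {n k : ℕ} {U : Opens (Mfd n k)} {S : Type} [TopologicalSpace S] [ChartedSpace ℂ S]
  {u : S → U}

/-- The derivative of the curve `u` in the chart `φ`. -/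
def der (u : S → U) (φ : OpenPartialHomeomorph S ℂ) (z : ℂ) : ℂ →L[ℝ] Mfd n k :=
  fderiv ℝ (fun z => (u (φ.symm z) : Mfd n k)) z

/-- The integrand of the integral of a multiple of the Kähler form. -/
def dens (u : S → U) (φ : OpenPartialHomeomorph S ℂ) (w : S → ℝ) (f : 𝓓(U, ℝ)) (z : ℂ) : ℝ :=
  w (φ.symm z) * (f (u (φ.symm z)) * ‖(der u φ z 1).1‖ ^ 2)

theorem IsCurve.integrand_eq (hu : IsCurve (leafTangent n k) (stdJ n k) U S u) {φ : OpenPartialHomeomorph S ℂ}
    (hφ : φ ∈ atlas ℂ S) (w : S → ℝ) (f : 𝓓(U, ℝ)) {z : ℂ} (hz : z ∈ φ.target) :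
    w (φ.symm z) * testForm f (u (φ.symm z)) ![der u φ z 1, der u φ z Complex.I] =
      dens u φ w f z := by
  have h1 := hu.holomorphic φ hφ z hz 1
  rw [mul_one] at h1
  have h2 : der u φ z Complex.I = stdJ n k (der u φ z 1) := h1
  rw [testForm_apply, h2, ContinuousAlternatingMap.smul_apply, kahler_J, smul_eq_mul]
  rfl

/-- The integral of a multiple of the Kähler form over a curve. -/
theorem IsCurve.integral_testForm (hu : IsCurve (leafTangent n k) (stdJ n k) U S u) {ι : Type} (g : PartitionOfUnity ι S univ)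
    (φ : ι → OpenPartialHomeomorph S ℂ) (hφ : ∀ i, φ i ∈ atlas ℂ S) (f : 𝓓(U, ℝ)) :
    integral g φ (fun s => (u s : Mfd n k)) (testForm f) =
      ∑ᶠ i, ∫ z in (φ i).target, dens u (φ i) (g i) f z := by
  unfold integral
  refine finsum_congr fun i => ?_
  refine setIntegral_congr_fun (φ i).open_target.measurableSet fun z hz => ?_
  exact hu.integrand_eq (hφ i) (g i) f hz

omit [ChartedSpace ℂ S] in
theorem dens_nonneg {φ : OpenPartialHomeomorph S ℂ} {w : S → ℝ} (hw : ∀ s, 0 ≤ w s)
    {f : 𝓓(U, ℝ)} (hf : ∀ y, 0 ≤ f y) (z : ℂ) : 0 ≤ dens u φ w f z :=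
  mul_nonneg (hw _) (mul_nonneg (hf _) (by positivity))

theorem IsCurve.integral_testForm_nonneg (hu : IsCurve (leafTangent n k) (stdJ n k) U S u) {ι : Type}
    (g : PartitionOfUnity ι S univ)
    (φ : ι → OpenPartialHomeomorph S ℂ) (hφ : ∀ i, φ i ∈ atlas ℂ S) {f : 𝓓(U, ℝ)}
    (hf : ∀ y, 0 ≤ f y) :
    0 ≤ integral g φ (fun s => (u s : Mfd n k)) (testForm f) := by
  rw [hu.integral_testForm g φ hφ f]
  exact finsum_nonneg fun i => integral_nonneg fun z => dens_nonneg (fun s => g.nonneg i s) hf z

theorem IsCurve.integral_testForm_eq_zero_of_forall (hu : IsCurve (leafTangent n k) (stdJ n k) U S u) {ι : Type}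
    (g : PartitionOfUnity ι S univ)
    (φ : ι → OpenPartialHomeomorph S ℂ) (hφ : ∀ i, φ i ∈ atlas ℂ S) {f : 𝓓(U, ℝ)}
    (hf : ∀ s, f (u s) = 0) :
    integral g φ (fun s => (u s : Mfd n k)) (testForm f) = 0 := by
  rw [hu.integral_testForm g φ hφ f]
  have : ∀ i, ∫ z in (φ i).target, dens u (φ i) (g i) f z = 0 := by
    intro i
    refine setIntegral_eq_zero_of_forall_eq_zero fun z _ => ?_
    rw [dens, hf, zero_mul, mul_zero]
  simp [this]

omit [ChartedSpace ℂ S] in
/-- The preimage of the support of a test function is compact. -/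
theorem isCompact_preimage_tsupport (hu : IsProperMap u) (f : 𝓓(U, ℝ)) :
    IsCompact {s : S | (u s : Mfd n k) ∈ tsupport f} := by
  have h1 : IsCompact (((↑) : U → Mfd n k) ⁻¹' tsupport f) := by
    rw [Topology.IsInducing.subtypeVal.isCompact_preimage_iff]
    · exact f.hasCompactSupport
    · intro y hy
      exact ⟨⟨y, f.tsupport_subset hy⟩, rfl⟩
  exact hu.isCompact_preimage h1

/-- A nonnegative multiple of the Kähler form with zero integral over a curve vanishes on it. -/
theorem IsCurve.eq_zero_of_integral_eq_zero [ConnectedSpace S] (hu : IsCurve (leafTangent n k) (stdJ n k) U S u) {ι : Type}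
    (g : PartitionOfUnity ι S univ) (φ : ι → OpenPartialHomeomorph S ℂ)
    (hφ : ∀ i, φ i ∈ atlas ℂ S) (hg : g.IsSubordinate fun i => (φ i).source) {f : 𝓓(U, ℝ)}
    (hf : ∀ y, 0 ≤ f y)
    (h0 : integral g φ (fun s => (u s : Mfd n k)) (testForm f) = 0) (s₀ : S) :
    f (u s₀) = 0 := by
  rw [hu.integral_testForm g φ hφ f] at h0
  by_contra hne
  have hpos : 0 < f (u s₀) := lt_of_le_of_ne (hf _) (Ne.symm hne)
  set K : Set S := {s : S | (u s : Mfd n k) ∈ tsupport f} with hK
  have hKc : IsCompact K := isCompact_preimage_tsupport hu.proper f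
  have hKf : ∀ s, s ∉ K → f (u s) = 0 := fun s hs => image_eq_zero_of_notMem_tsupport hs
  have hnn : ∀ i, 0 ≤ ∫ z in (φ i).target, dens u (φ i) (g i) f z := fun i =>
    integral_nonneg fun z => dens_nonneg (fun s => g.nonneg i s) hf z
  -- finitely many charts contribute
  have hfin : {i | (Function.support (g i) ∩ K).Nonempty}.Finite :=
    g.locallyFinite.finite_nonempty_inter_compact hKc
  have hsupp : (Function.support fun i => ∫ z in (φ i).target, dens u (φ i) (g i) f z) ⊆
      hfin.toFinset := by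
    intro i hi
    rw [Finite.coe_toFinset]
    by_contra hemp
    apply hi
    refine setIntegral_eq_zero_of_forall_eq_zero fun z _ => ?_
    by_cases hz : (φ i).symm z ∈ K
    · have : g i ((φ i).symm z) = 0 := by
        by_contra hgz
        exact hemp ⟨_, hgz, hz⟩
      rw [dens, this, zero_mul]
    · rw [dens, hKf _ hz, zero_mul, mul_zero]
  rw [finsum_eq_sum_of_support_subset _ hsupp] at h0
  have hzero : ∀ i, ∫ z in (φ i).target, dens u (φ i) (g i) f z = 0 := by
    intro i
    by_cases hi : i ∈ hfin.toFinset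
    · exact (Finset.sum_eq_zero_iff_of_nonneg fun i _ => hnn i).1 h0 i hi
    · by_contra hne'
      exact hi (hsupp hne')
  obtain ⟨i, hi⟩ := g.exists_pos (mem_univ s₀)
  have hsrc : tsupport (g i) ⊆ (φ i).source := hg i
  have hs₀ : s₀ ∈ (φ i).source := hsrc (subset_tsupport _ hi.ne')
  set F : ℂ → Mfd n k := fun z => (u ((φ i).symm z) : Mfd n k) with hF
  have hFs : ContDiffOn ℝ ∞ F (φ i).target := hu.smooth (φ i) (hφ i)
  have hder : ContinuousOn (fun z => der u (φ i) z) (φ i).target :=
    hFs.continuousOn_fderiv_of_isOpen (φ i).open_target (by simp)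
  have hgc : ContinuousOn (fun z => g i ((φ i).symm z)) (φ i).target :=
    (g i).continuous.comp_continuousOn (φ i).continuousOn_symm
  have hfc : ContinuousOn (fun z => f (u ((φ i).symm z))) (φ i).target :=
    f.continuous.comp_continuousOn hFs.continuousOn
  have hnc : ContinuousOn (fun z => ‖(der u (φ i) z 1).1‖ ^ 2) (φ i).target := by
    have : ContinuousOn (fun z => der u (φ i) z 1) (φ i).target :=
      hder.clm_apply continuousOn_const
    exact (continuous_fst.comp_continuousOn this).norm.pow 2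
  have hdc : ContinuousOn (dens u (φ i) (g i) f) (φ i).target := hgc.mul (hfc.mul hnc)
  -- the integrand is integrable
  have hint : IntegrableOn (dens u (φ i) (g i) f) (φ i).target := by
    have hC : IsCompact (φ i '' (tsupport (g i) ∩ K)) :=
      (hKc.inter_left (isClosed_tsupport _)).image_of_continuousOn
        ((φ i).continuousOn.mono (inter_subset_left.trans hsrc))
    have hCt : φ i '' (tsupport (g i) ∩ K) ⊆ (φ i).target := by
      rintro _ ⟨s, hs, rfl⟩
      exact (φ i).map_source (hsrc hs.1)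
    have h1 : IntegrableOn (dens u (φ i) (g i) f) (φ i '' (tsupport (g i) ∩ K)) :=
      (hdc.mono hCt).integrableOn_compact hC
    refine h1.of_forall_sdiff_eq_zero (φ i).open_target.measurableSet fun z hz => ?_
    by_cases hz1 : (φ i).symm z ∈ tsupport (g i)
    · have : (φ i).symm z ∉ K := fun h => hz.2 ⟨(φ i).symm z, ⟨hz1, h⟩, (φ i).right_inv hz.1⟩
      rw [dens, hKf _ this, zero_mul, mul_zero]
    · rw [dens, image_eq_zero_of_notMem_tsupport hz1, zero_mul]
  have hae : dens u (φ i) (g i) f =ᵐ[volume.restrict (φ i).target] 0 :=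
    (setIntegral_eq_zero_iff_of_nonneg_ae
      (ae_of_all _ fun z => dens_nonneg (fun s => g.nonneg i s) hf z) hint).1 (hzero i)
  have hall : EqOn (dens u (φ i) (g i) f) 0 (φ i).target :=
    Measure.eqOn_open_of_ae_eq hae (φ i).open_target hdc continuousOn_const
  -- the curve is constant near `s₀`
  set z₀ : ℂ := φ i s₀ with hz₀
  have hz₀t : z₀ ∈ (φ i).target := (φ i).map_source hs₀
  have hsz : (φ i).symm z₀ = s₀ := (φ i).left_inv hs₀
  have hnhds : (φ i).target ∈ 𝓝 z₀ := (φ i).open_target.mem_nhds hz₀t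
  have hev : ∀ᶠ z in 𝓝 z₀, z ∈ (φ i).target ∧ 0 < g i ((φ i).symm z) ∧
      0 < f (u ((φ i).symm z)) := by
    refine Filter.Eventually.and hnhds (Filter.Eventually.and ?_ ?_)
    · exact (hgc.continuousAt hnhds).eventually (lt_mem_nhds (by
        change 0 < g i ((φ i).symm z₀)
        rwa [hsz]))
    · exact (hfc.continuousAt hnhds).eventually (lt_mem_nhds (by
        change 0 < f (u ((φ i).symm z₀))
        rwa [hsz]))
  obtain ⟨r, hr, hball⟩ := Metric.eventually_nhds_iff_ball.1 hev
  have hderiv : ∀ z ∈ Metric.ball z₀ r, HasFDerivAt (fun z => (F z).1)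
      (0 : ℂ →L[ℝ] EuclideanSpace ℂ (Fin n)) z := by
    intro z hz
    obtain ⟨hzt, hgz, hfz⟩ := hball z hz
    have h1 : DifferentiableAt ℝ F z :=
      (hFs.differentiableOn (by simp)).differentiableAt ((φ i).open_target.mem_nhds hzt)
    have h2 := h1.hasFDerivAt.fst
    have h3 : (der u (φ i) z 1).1 = 0 := by
      have h4 := hall hzt
      simp only [dens, Pi.zero_apply, mul_eq_zero, hgz.ne', hfz.ne', false_or,
        pow_eq_zero_iff, ne_eq, OfNat.ofNat_ne_zero, not_false_eq_true, norm_eq_zero] at h4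
      exact h4
    have h5 : (der u (φ i) z Complex.I).1 = 0 := by
      have h6 := hu.holomorphic (φ i) (hφ i) z hzt 1
      rw [mul_one] at h6
      have h7 : der u (φ i) z Complex.I = stdJ n k (der u (φ i) z 1) := h6
      rw [h7]
      change Complex.I • (der u (φ i) z 1).1 = 0
      rw [h3, smul_zero]
    have h8 : (ContinuousLinearMap.fst ℝ (EuclideanSpace ℂ (Fin n))
        (EuclideanSpace ℝ (Fin k))).comp (fderiv ℝ F z) = 0 := by
      ext1 c
      have hc : c = c.re • (1 : ℂ) + c.im • Complex.I := by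
        simp [Complex.re_add_im]
      rw [hc, map_add, map_smul, map_smul]
      change c.re • (der u (φ i) z 1).1 + c.im • (der u (φ i) z Complex.I).1 = 0
      rw [h3, h5, smul_zero, smul_zero, add_zero]
    rwa [h8] at h2
  have hconst : ∀ z ∈ Metric.ball z₀ r, (F z).1 = (F z₀).1 := by
    intro z hz
    refine Metric.isOpen_ball.is_const_of_fderiv_eq_zero (𝕜 := ℝ)
      (convex_ball z₀ r).isPreconnected (f := fun z => (F z).1)
      (fun z hz => (hderiv z hz).differentiableAt.differentiableWithinAt)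
      (fun z hz => (hderiv z hz).fderiv) hz (Metric.mem_ball_self hr)
  have hnear : ∀ᶠ s in 𝓝 s₀, (u s : Mfd n k).1 = (u s₀ : Mfd n k).1 := by
    filter_upwards [(φ i).open_source.mem_nhds hs₀,
      ((φ i).continuousAt hs₀).preimage_mem_nhds (Metric.ball_mem_nhds _ hr)] with s hs hsb
    have := hconst _ hsb
    simp only [hF] at this
    rwa [(φ i).left_inv hs, hsz] at this
  have hglob := hu.hol.eq_const hnear
  obtain ⟨w, hw⟩ := hu.leaf
  refine hu.not_const ⟨((u s₀ : Mfd n k).1, w.2), fun s => Prod.ext (hglob s) ?_⟩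
  have h9 : ((u s : Mfd n k) - w).2 = 0 := hw s
  rwa [Prod.snd_sub, sub_eq_zero] at h9

end Pool.Agent.V8H78.LeafCurves
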