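import Pool.Agent.V8H78.LeafCurves.Cycle

/-!
# The tropical current
-/

open Set MeasureTheory TopologicalSpace Topology Filter
open scoped Distributions CompactConvergenceCLM Manifold ContDiff NNReal BoundedContinuousFunction

noncomputable section

namespace Pool.Agent.V8H78.LeafCurves

/-- The function `(x, y, θ) ↦ x + i y`. -/
def zxy : P →L[ℝ] ℂ := LinearMap.toContinuousLinearMap
  { toFun := fun p => ⟨p.1, p.2.1⟩
    map_add' := fun p q => by apply Complex.ext <;> simp
    map_smul' := fun c p => by apply Complex.ext <;> simp }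

/-- The function `(x, y, θ) ↦ i θ`. -/
def zth : P →L[ℝ] ℂ := LinearMap.toContinuousLinearMap
  { toFun := fun p => ⟨0, p.2.2⟩
    map_add' := fun p q => by apply Complex.ext <;> simp
    map_smul' := fun c p => by apply Complex.ext <;> simp }

@[simp] theorem zxy_apply (p : P) : zxy p = ⟨p.1, p.2.1⟩ := rfl
@[simp] theorem zth_apply (p : P) : zth p = ⟨0, p.2.2⟩ := rfl

/-- The three parametrisations, in the coordinates of `ℂ²`. -/
def r0 : P →L[ℝ] ℂ × ℂ := zth.prod zxy
/-- The three parametrisations, in the coordinates of `ℂ²`. -/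
def r1 : P →L[ℝ] ℂ × ℂ := zxy.prod zth
/-- The three parametrisations, in the coordinates of `ℂ²`. -/
def r2 : P →L[ℝ] ℂ × ℂ := (-zxy).prod (-zxy + zth)

theorem r0_apply (p : P) : r0 p = (⟨0, p.2.2⟩, ⟨p.1, p.2.1⟩) := rfl
theorem r1_apply (p : P) : r1 p = (⟨p.1, p.2.1⟩, ⟨0, p.2.2⟩) := rfl
theorem r2_apply (p : P) : r2 p = (⟨-p.1, -p.2.1⟩, ⟨-p.1, -p.2.1 + p.2.2⟩) := by
  simp only [r2, ContinuousLinearMap.prod_apply, add_apply, neg_apply, zxy_apply, zth_apply]
  refine Prod.ext (Complex.ext ?_ ?_) (Complex.ext ?_ ?_) <;> simp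

theorem r0_injective : Function.Injective r0 := by
  intro p q h
  simp only [r0_apply, Prod.mk.injEq, Complex.mk.injEq] at h
  exact Prod.ext h.2.1 (Prod.ext h.2.2 h.1.2)

theorem r1_injective : Function.Injective r1 := by
  intro p q h
  simp only [r1_apply, Prod.mk.injEq, Complex.mk.injEq] at h
  exact Prod.ext h.1.1 (Prod.ext h.1.2 h.2.2)

theorem r2_injective : Function.Injective r2 := by
  intro p q h
  simp only [r2_apply, Prod.mk.injEq, Complex.mk.injEq] at h
  refine Prod.ext ?_ (Prod.ext ?_ ?_) <;> linarith [h.1.1, h.1.2, h.2.2]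

variable {n : ℕ} (k : ℕ)

/-- The embedding `(a, b) ↦ (a, b, 0, …, 0)` of `ℂ²` in `ℂⁿ × ℝᵏ`. -/
def emb (hn : 2 ≤ n) : ℂ × ℂ →L[ℝ] Mfd n k :=
  (((ContinuousLinearMap.fst ℂ ℂ ℂ).smulRight
      (EuclideanSpace.single (⟨0, by omega⟩ : Fin n) (1 : ℂ)) +
    (ContinuousLinearMap.snd ℂ ℂ ℂ).smulRight
      (EuclideanSpace.single (⟨1, by omega⟩ : Fin n) (1 : ℂ))).restrictScalars ℝ).prod 0

theorem emb_apply_snd (hn : 2 ≤ n) (z : ℂ × ℂ) : (emb k hn z).2 = 0 := rfl

theorem emb_apply_fst (hn : 2 ≤ n) (z : ℂ × ℂ) : (emb k hn z).1 =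
    z.1 • EuclideanSpace.single (⟨0, by omega⟩ : Fin n) (1 : ℂ) +
      z.2 • EuclideanSpace.single (⟨1, by omega⟩ : Fin n) (1 : ℂ) := rfl

theorem emb_zero_coord (hn : 2 ≤ n) (z : ℂ × ℂ) : (emb k hn z).1 ⟨0, by omega⟩ = z.1 := by
  simp [emb_apply_fst]

theorem emb_one_coord (hn : 2 ≤ n) (z : ℂ × ℂ) : (emb k hn z).1 ⟨1, by omega⟩ = z.2 := by
  simp [emb_apply_fst]

theorem emb_other_coord (hn : 2 ≤ n) (z : ℂ × ℂ) (i : Fin n) (hi : 2 ≤ i.val) :
    (emb k hn z).1 i = 0 := by
  have h0 : i ≠ ⟨0, by omega⟩ := by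
    intro h
    rw [h] at hi
    simp at hi
  have h1 : i ≠ ⟨1, by omega⟩ := by
    intro h
    rw [h] at hi
    simp at hi
  simp [emb_apply_fst, h0, h1]

theorem emb_injective (hn : 2 ≤ n) : Function.Injective (emb k hn) := by
  intro z w h
  have h0 := emb_zero_coord k hn z
  have h1 := emb_one_coord k hn z
  rw [h, emb_zero_coord] at h0
  rw [h, emb_one_coord] at h1
  exact Prod.ext h0.symm h1.symm

theorem stdJ_emb (hn : 2 ≤ n) (z : ℂ × ℂ) : stdJ n k (emb k hn z) = emb k hn (Complex.I • z) := by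
  refine Prod.ext ?_ rfl
  change Complex.I • (emb k hn z).1 = (emb k hn (Complex.I • z)).1
  rw [emb_apply_fst, emb_apply_fst]
  simp [smul_add, smul_smul]

/-- The first parametrisation. -/
def q0 (hn : 2 ≤ n) : P →L[ℝ] Mfd n k := (emb k hn).comp r0
/-- The second parametrisation. -/
def q1 (hn : 2 ≤ n) : P →L[ℝ] Mfd n k := (emb k hn).comp r1
/-- The third parametrisation. -/
def q2 (hn : 2 ≤ n) : P →L[ℝ] Mfd n k := (emb k hn).comp r2

theorem q0_apply (hn : 2 ≤ n) (p : P) : q0 k hn p = emb k hn (r0 p) := rfl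
theorem q1_apply (hn : 2 ≤ n) (p : P) : q1 k hn p = emb k hn (r1 p) := rfl
theorem q2_apply (hn : 2 ≤ n) (p : P) : q2 k hn p = emb k hn (r2 p) := rfl

theorem q0_injective (hn : 2 ≤ n) : Function.Injective (q0 k hn) :=
  (emb_injective k hn).comp r0_injective
theorem q1_injective (hn : 2 ≤ n) : Function.Injective (q1 k hn) :=
  (emb_injective k hn).comp r1_injective
theorem q2_injective (hn : 2 ≤ n) : Function.Injective (q2 k hn) :=
  (emb_injective k hn).comp r2_injective

/-- The tropical current. -/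
def tropical (hn : 2 ≤ n) : Current 2 (⊤ : Opens (Mfd n k)) :=
  piece (q0 k hn) (q0_injective k hn) + piece (q1 k hn) (q1_injective k hn) +
    piece (q2 k hn) (q2_injective k hn)

theorem tropical_apply (hn : 2 ≤ n) (α : 𝓓((⊤ : Opens (Mfd n k)), Alt (Mfd n k) 2)) :
    tropical k hn α = (∫ p in half, pieceFun (q0 k hn) α p) + (∫ p in half, pieceFun (q1 k hn) α p)
      + ∫ p in half, pieceFun (q2 k hn) α p := rfl

theorem q0_J (hn : 2 ≤ n) : q0 k hn (0, 1, 0) = stdJ n k (q0 k hn (1, 0, 0)) := by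
  rw [q0_apply, q0_apply, stdJ_emb]
  congr 1
  rw [r0_apply, r0_apply]
  refine Prod.ext (Complex.ext ?_ ?_) (Complex.ext ?_ ?_) <;> simp

theorem q1_J (hn : 2 ≤ n) : q1 k hn (0, 1, 0) = stdJ n k (q1 k hn (1, 0, 0)) := by
  rw [q1_apply, q1_apply, stdJ_emb]
  congr 1
  rw [r1_apply, r1_apply]
  refine Prod.ext (Complex.ext ?_ ?_) (Complex.ext ?_ ?_) <;> simp

theorem q2_J (hn : 2 ≤ n) : q2 k hn (0, 1, 0) = stdJ n k (q2 k hn (1, 0, 0)) := by
  rw [q2_apply, q2_apply, stdJ_emb]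
  congr 1
  rw [r2_apply, r2_apply]
  refine Prod.ext (Complex.ext ?_ ?_) (Complex.ext ?_ ?_) <;> simp

theorem emb_mem_leafTangent (hn : 2 ≤ n) (z : ℂ × ℂ) : emb k hn z ∈ leafTangent n k := rfl

theorem isConeCurrent_tropical (hn : 2 ≤ n) :
    IsConeCurrent (leafTangent n k) (stdJ n k) (tropical k hn) :=
  ((isConeCurrent_piece (q0 k hn) _ (emb_mem_leafTangent k hn (r0 (1, 0, 0))) (q0_J k hn)).add
    (isConeCurrent_piece (q1 k hn) _ (emb_mem_leafTangent k hn (r1 (1, 0, 0))) (q1_J k hn))).add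
    (isConeCurrent_piece (q2 k hn) _ (emb_mem_leafTangent k hn (r2 (1, 0, 0))) (q2_J k hn))

/-- The parametrisation `(s, t) ↦ (i s, i t)` of the common boundary of the three pieces. -/
def bd : ℝ × ℝ →L[ℝ] ℂ × ℂ :=
  (ContinuousLinearMap.smulRight (ContinuousLinearMap.fst ℝ ℝ ℝ) Complex.I).prod
    (ContinuousLinearMap.smulRight (ContinuousLinearMap.snd ℝ ℝ ℝ) Complex.I)

theorem bd_apply (w : ℝ × ℝ) : bd w = (⟨0, w.1⟩, ⟨0, w.2⟩) := by
  refine Prod.ext (Complex.ext ?_ ?_) (Complex.ext ?_ ?_) <;> simp [bd]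

theorem bd_injective : Function.Injective bd := by
  intro p q h
  simp only [bd_apply, Prod.mk.injEq, Complex.mk.injEq] at h
  exact Prod.ext h.1.2 h.2.2

/-- The shear `(s, t) ↦ (-s, -s + t)`. -/
def shear : ℝ × ℝ →L[ℝ] ℝ × ℝ :=
  (-ContinuousLinearMap.fst ℝ ℝ ℝ).prod
    (-ContinuousLinearMap.fst ℝ ℝ ℝ + ContinuousLinearMap.snd ℝ ℝ ℝ)

theorem shear_apply (w : ℝ × ℝ) : shear w = (-w.1, -w.1 + w.2) := rfl

theorem shear_injective : Function.Injective shear := by
  intro p q h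
  simp only [shear_apply, Prod.mk.injEq, neg_inj] at h
  refine Prod.ext h.1 ?_
  linarith [h.1, h.2]

theorem integrable_comp_shear {g : ℝ × ℝ → ℝ} (hg : Continuous g) (hc : HasCompactSupport g) :
    Integrable (fun w : ℝ × ℝ => g (-w.1, -w.1 + w.2)) := by
  have hcs : HasCompactSupport (g ∘ shear) :=
    hc.comp_isClosedEmbedding (shear.toLinearMap.isClosedEmbedding_of_injective
      (LinearMap.ker_eq_bot.2 shear_injective))
  exact Continuous.integrable_of_hasCompactSupport (by fun_prop) hcs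

theorem integral_shear {g : ℝ × ℝ → ℝ} (hg : Continuous g) (hc : HasCompactSupport g) :
    ∫ w : ℝ × ℝ, g (-w.1, -w.1 + w.2) = ∫ w : ℝ × ℝ, g w := by
  have h1 : Integrable g ((volume : Measure ℝ).prod volume) :=
    hg.integrable_of_hasCompactSupport hc
  have h2 : Integrable (fun w : ℝ × ℝ => g (-w.1, -w.1 + w.2))
      ((volume : Measure ℝ).prod volume) := integrable_comp_shear hg hc
  rw [Measure.volume_eq_prod, integral_prod _ h1, integral_prod _ h2]
  have h3 : ∀ x : ℝ, ∫ y : ℝ, g (-x, -x + y) = ∫ y : ℝ, g (-x, y) := fun x =>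
    integral_add_left_eq_self (fun y => g (-x, y)) (-x)
  simp only [h3]
  exact integral_neg_eq_self (fun x => ∫ y : ℝ, g (x, y)) volume

theorem integral_swap_pair {g : ℝ × ℝ → ℝ} :
    ∫ w : ℝ × ℝ, g (w.2, w.1) = ∫ w : ℝ × ℝ, g w := by
  rw [Measure.volume_eq_prod]
  exact integral_prod_swap g

theorem isCycle_tropical (hn : 2 ≤ n) : IsCycle (tropical k hn) := by
  intro β γ h
  let g : Mfd n k → ℝ × ℝ → ℝ := fun v w => β (emb k hn (bd w)) ![v]
  have hg : ∀ v, Continuous (g v) := by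
    intro v
    have : Continuous fun w => β (emb k hn (bd w)) := β.continuous.comp (by fun_prop)
    fun_prop
  have hgc : ∀ v, HasCompactSupport (g v) := by
    intro v
    have h2 : HasCompactSupport fun y => β y ![v] := β.hasCompactSupport.mono (by
      intro y hy h0
      apply hy
      simp [h0])
    exact h2.comp_isClosedEmbedding (((emb k hn).comp bd).toLinearMap.isClosedEmbedding_of_injective
      (LinearMap.ker_eq_bot.2 ((emb_injective k hn).comp bd_injective)))
  change piece (q0 k hn) (q0_injective k hn) γ + piece (q1 k hn) (q1_injective k hn) γ +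
    piece (q2 k hn) (q2_injective k hn) γ = 0
  rw [piece_extDeriv _ _ β γ h, piece_extDeriv _ _ β γ h, piece_extDeriv _ _ β γ h]
  set v0 : Mfd n k := emb k hn (0, Complex.I) with hv0
  set v1 : Mfd n k := emb k hn (Complex.I, 0) with hv1
  have e0 : ∫ w : ℝ × ℝ, β (q0 k hn (0, w)) ![q0 k hn (0, 1, 0)] = ∫ w, g v0 w := by
    rw [← integral_swap_pair]
    refine integral_congr_ae (ae_of_all _ fun w => ?_)
    simp only [g, v0, q0_apply, r0_apply, bd_apply]
    rfl
  have e1 : ∫ w : ℝ × ℝ, β (q1 k hn (0, w)) ![q1 k hn (0, 1, 0)] = ∫ w, g v1 w := by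
    refine integral_congr_ae (ae_of_all _ fun w => ?_)
    simp only [g, v1, q1_apply, r1_apply, bd_apply]
    rfl
  have e2 : ∫ w : ℝ × ℝ, β (q2 k hn (0, w)) ![q2 k hn (0, 1, 0)] =
      - (∫ w, g v0 w) - ∫ w, g v1 w := by
    have hi0 := integrable_comp_shear (hg v0) (hgc v0)
    have hi1 := integrable_comp_shear (hg v1) (hgc v1)
    rw [← integral_shear (hg v0) (hgc v0), ← integral_shear (hg v1) (hgc v1), ← integral_neg,
      ← integral_sub (f := fun w : ℝ × ℝ => -g v0 (-w.1, -w.1 + w.2)) hi0.neg hi1]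
    refine integral_congr_ae (ae_of_all _ fun w => ?_)
    have hv : q2 k hn (0, 1, 0) = -v0 - v1 := by
      rw [hv0, hv1, ← map_neg, ← map_sub, q2_apply, r2_apply]
      congr 1
      refine Prod.ext (Complex.ext ?_ ?_) (Complex.ext ?_ ?_) <;> simp
    have hp : q2 k hn (0, w) = emb k hn (bd (-w.1, -w.1 + w.2)) := by
      rw [q2_apply, r2_apply, bd_apply]
      simp
    simp only
    rw [hv, hp]
    have hlin : ∀ a : Alt (Mfd n k) 1, a ![-v0 - v1] = -(a ![v0]) - a ![v1] := by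
      intro a
      have hu : ∀ v : Mfd n k, Function.update (![0] : Fin 1 → Mfd n k) 0 v = ![v] := by
        intro v
        funext i
        fin_cases i
        rfl
      have h1 := a.map_update_sub ![0] 0 (-v0) v1
      have h2 := a.map_update_smul ![0] 0 (-1 : ℝ) v0
      rw [hu, hu, hu] at h1
      rw [hu, hu, neg_one_smul, neg_one_smul] at h2
      rw [h1, h2]
    exact hlin _
  rw [e0, e1, e2]
  ring

end Pool.Agent.V8H78.LeafCurves
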